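import Pool.Agent.TH74.Gen.Color
import Mathlib.Order.Antisymmetrization

set_option autoImplicit false

/-!
# Total preorders and their linear quotients
-/

namespace Pool.Agent.TH74.Gen

/-- the linear quotient of a total preorder -/
theorem exists_quot {A : Type} (r : A → A → Prop) (ht : ∀ a b, r a b ∨ r b a)
    (htr : ∀ a b c, r a b → r b c → r a c) :
    ∃ (J : Type) (_ : LinearOrder J) (q : A → J), Function.Surjective q ∧
      ∀ a b, r a b ↔ q a ≤ q b := by
  classical
  let iP : Preorder A :=
    { le := r
      le_refl := fun a => (ht a a).elim id id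
      le_trans := fun a b c => htr a b c }
  let iL : LinearOrder (Antisymmetrization A (· ≤ ·)) :=
    { (inferInstance : PartialOrder (Antisymmetrization A (· ≤ ·))) with
      le_total := by
        intro x y
        induction x using Antisymmetrization.ind with
        | _ a =>
          induction y using Antisymmetrization.ind with
          | _ b => exact ht a b
      toDecidableLE := Classical.decRel _ }
  refine ⟨Antisymmetrization A (· ≤ ·), iL, toAntisymmetrization (· ≤ ·), ?_, fun a b => ?_⟩
  · intro x
    induction x using Antisymmetrization.ind with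
    | _ a => exact ⟨a, rfl⟩
  · exact (toAntisymmetrization_le_toAntisymmetrization_iff (α := A) (a := a) (b := b)).symm

/-- bijections which preserve the preorders induce isomorphisms of the quotients -/
theorem exists_induced {A B J K : Type} [LinearOrder J] [LinearOrder K] {q : A → J} {p : B → K}
    (hq : Function.Surjective q) (hp : Function.Surjective p) (e : A ≃ B)
    (he : ∀ a b, q a ≤ q b ↔ p (e a) ≤ p (e b)) :
    ∃ f : J ≃o K, ∀ a, f (q a) = p (e a) := by
  choose s hs using hq
  have hwell : ∀ a b, q a = q b ↔ p (e a) = p (e b) := by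
    intro a b
    rw [le_antisymm_iff, le_antisymm_iff, he, he]
  have key : ∀ a, p (e (s (q a))) = p (e a) := fun a => (hwell _ _).1 (hs (q a))
  let f : J → K := fun j => p (e (s j))
  have hf : ∀ a, f (q a) = p (e a) := key
  have hinj : Function.Injective f := by
    intro i j hij
    rw [← hs i, ← hs j]
    exact (hwell _ _).2 hij
  have hsurj : Function.Surjective f := by
    intro k
    obtain ⟨b, rfl⟩ := hp k
    refine ⟨q (e.symm b), ?_⟩
    rw [hf, Equiv.apply_symm_apply]
  refine ⟨{ toEquiv := Equiv.ofBijective f ⟨hinj, hsurj⟩, map_rel_iff' := ?_ }, hf⟩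
  intro i j
  change f i ≤ f j ↔ i ≤ j
  rw [← hs i, ← hs j, hf, hf, ← he]

/-- the version of the coloring theorem for subsets -/
theorem exists_colorings_set {J : Type} [LinearOrder J] {V : Set J} (hV : V.Infinite) :
    ∃ U : (ℕ → Bool) → Set J, ∀ (x y : ℕ → Bool) (e : J ≃o J), (∀ i, i ∈ V ↔ e i ∈ V) →
      (∀ i ∈ V, i ∈ U x ↔ e i ∈ U y) → x = y := by
  have hV' : Infinite V := Set.infinite_coe_iff.2 hV
  obtain ⟨U, hU⟩ := exists_colorings V
  refine ⟨fun x => Subtype.val '' U x, fun x y e h1 h2 => ?_⟩
  let e' : V ≃o V :=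
    { toEquiv := e.toEquiv.subtypeEquiv h1
      map_rel_iff' := fun {a b} => e.map_rel_iff' }
  refine hU x y e' fun i => ?_
  have h3 := h2 i.1 i.2
  have h4 : ∀ (z : ℕ → Bool) (j : V), j.1 ∈ Subtype.val '' U z ↔ j ∈ U z := by
    intro z j
    constructor
    · rintro ⟨k, hk, hkj⟩
      rwa [← Subtype.ext hkj]
    · exact fun h => ⟨j, h, rfl⟩
  rw [h4 x i] at h3
  exact h3.trans (h4 y (e' i))

end Pool.Agent.TH74.Gen
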