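import Pool.Agent.TH74.Gen.Models
import Pool.Agent.TH74.Gen.Quot

set_option autoImplicit false
set_option linter.unusedSectionVars false

/-!
# Sums which are models of `T`, and the isomorphism types of their classes
-/

namespace Pool.Agent.TH74.Gen

open FirstOrder FirstOrder.Language Pool.Agent.TH74.Martin

variable {L LQ : FirstOrder.Language.{0, 0}} [L.IsRelational] [LQ.IsRelational]
  {T : L.Theory} {ε : L.BoundedFormula Empty 2} {le : LQ.Relations 2}
  {θ : ∀ n : ℕ, LQ.Relations n → L.BoundedFormula Empty n} {h : IsGenSum T ε le θ}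

instance {δ : Cross L LQ} {I : Type} {C : I → Type} [Nonempty I] [∀ i, Nonempty (C i)] :
    Nonempty (Sm δ C) :=
  ⟨⟨Classical.arbitrary I, Classical.arbitrary _⟩⟩

instance {δ : Cross L LQ} {I : Type} {C : I → Type} [Countable I] [∀ i, Countable (C i)] :
    Countable (Sm δ C) :=
  inferInstanceAs (Countable (Σ i, C i))

/-- a sum which is a model of `T` -/
structure SM (h : IsGenSum T ε le θ) : Type 1 where
  /-- the indices -/
  I : Type
  /-- the classes -/
  C : I → Type
  /-- the structure of the indices -/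
  sI : LQ.Structure I
  /-- the structures of the classes -/
  sC : ∀ i, L.Structure (C i)
  nI : Nonempty I
  cI : Countable I
  nC : ∀ i, Nonempty (C i)
  cC : ∀ i, Countable (C i)
  dfs : Dfs (crossOf h) ε θ C
  model : Sm (crossOf h) C ⊨ T

attribute [instance] SM.sI SM.sC SM.nI SM.cI SM.nC SM.cC

/-- the sum -/
abbrev SM.S (M : SM h) : Type := Sm (crossOf h) M.C

/-- the index structure -/
abbrev SM.X (M : SM h) : Type := Ix L LQ M.C

instance (M : SM h) : Nonempty M.X := M.nI
instance (M : SM h) : Countable M.X := M.cI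

/-- the sum obtained by another choice of the classes, with the same theories -/
theorem exists_repl [IsEmpty (L.Relations 0)] (M : SM h) (G : M.I → Str L)
    (hG : ∀ i (σ : L.Sentence), M.C i ⊨ σ ↔ (G i).M ⊨ σ) :
    Dfs (crossOf h) ε θ (fun i => (G i).M) ∧ Sm (crossOf h) (fun i => (G i).M) ⊨ T := by
  have h1 : EEq (LI L LQ) (Fin.elim0 : Fin 0 → Ix L LQ M.C)
      (Fin.elim0 : Fin 0 → Ix L LQ fun i => (G i).M) := by
    refine eeq_elim0_of_iso ⟨Equiv.refl M.I, fun f => Empty.elim f, fun {n} R t => ?_⟩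
    change IxRel L LQ n at R
    cases R with
    | q Q => exact Iff.rfl
    | p σ =>
      have h2 : M.C (un (t 0)) ⊨ (σ : L.Sentence) ↔ (G (un (t 0))).M ⊨ (σ : L.Sentence) :=
        hG (un (t 0)) σ
      rw [← tr_sentence, ← tr_sentence] at h2
      exact h2.symm
  exact ⟨dfs_of_eeq (finDep_crossOf h) h1 M.dfs, model_of_eeq (finDep_crossOf h) h1 M.model⟩

open Classical in
/-- a choice between two structures -/
noncomputable def pick (P : Prop) (A B : Str L) : Str L := if P then A else B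

omit [L.IsRelational] in
theorem pick_pos {P : Prop} (h : P) (A B : Str L) : pick P A B = A := if_pos h

omit [L.IsRelational] in
theorem pick_neg {P : Prop} (h : ¬ P) (A B : Str L) : pick P A B = B := if_neg h

/-- another choice of the classes -/
def SM.repl [IsEmpty (L.Relations 0)] (M : SM h) (G : M.I → Str L)
    (hn : ∀ i, Nonempty (G i).M) (hc : ∀ i, Countable (G i).M)
    (hG : ∀ i (σ : L.Sentence), M.C i ⊨ σ ↔ (G i).M ⊨ σ) : SM h where
  I := M.I
  C := fun i => (G i).M
  sI := M.sI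
  sC := fun i => (G i).str
  nI := M.nI
  cI := M.cI
  nC := hn
  cC := hc
  dfs := (exists_repl M G hG).1
  model := (exists_repl M G hG).2

/-- If there is a Cantor family of choices of the classes such that the sums are not isomorphic,
then `T` does not have few countable models. -/
theorem not_few_of_repl [IsEmpty (L.Relations 0)] (hfew : Few T) (M : SM h)
    (G : (ℕ → Bool) → M.I → Str L) (hn : ∀ x i, Nonempty (G x i).M)
    (hc : ∀ x i, Countable (G x i).M)
    (hG : ∀ x i (σ : L.Sentence), M.C i ⊨ σ ↔ (G x i).M ⊨ σ)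
    (hiso : ∀ (x y : ℕ → Bool) (e : M.I ≃[LQ] M.I),
      (∀ i, Nonempty ((G x i).M ≃[L] (G y (e i)).M)) → x = y) : False := by
  refine hfew ⟨fun x => (M.repl (G x) (hn x) (hc x) (hG x)).S, fun x => inferInstance,
    fun x => ⟨inferInstance, inferInstance, (M.repl (G x) (hn x) (hc x) (hG x)).model⟩,
    fun x y hxy => ?_⟩
  obtain ⟨f⟩ := hxy
  obtain ⟨e, he⟩ := iso_sum (M.repl (G x) (hn x) (hc x) (hG x)).dfs
    (M.repl (G y) (hn y) (hc y) (hG y)).dfs f
  exact hiso x y e he

/-- the theories of the classes have few countable models -/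
theorem few_class [IsEmpty (L.Relations 0)] (hfew : Few T) (M : SM h) (i₀ : M.I) :
    Few (L.completeTheory (M.C i₀)) := by
  rintro ⟨D, str, hD, hiso⟩
  have h0 : M.C i₀ ⊨ L.completeTheory (M.C i₀) := th_iff.2 fun σ => Iff.rfl
  let G : (ℕ → Bool) → M.I → Str L := fun x i =>
    pick (M.C i ⊨ L.completeTheory (M.C i₀)) ⟨D x, str x⟩ ⟨M.C i, M.sC i⟩
  have hp : ∀ x i, M.C i ⊨ L.completeTheory (M.C i₀) → G x i = ⟨D x, str x⟩ :=
    fun x i hi => pick_pos hi _ _
  have hn : ∀ x i, ¬ M.C i ⊨ L.completeTheory (M.C i₀) → G x i = ⟨M.C i, M.sC i⟩ :=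
    fun x i hi => pick_neg hi _ _
  refine not_few_of_repl hfew M G
    (fun x i => ?_) (fun x i => ?_) (fun x i σ => ?_) fun x y e he => ?_
  · by_cases hi : M.C i ⊨ L.completeTheory (M.C i₀)
    · rw [hp x i hi]
      exact (hD x).1
    · rw [hn x i hi]
      exact M.nC i
  · by_cases hi : M.C i ⊨ L.completeTheory (M.C i₀)
    · rw [hp x i hi]
      exact (hD x).2.1
    · rw [hn x i hi]
      exact M.cC i
  · by_cases hi : M.C i ⊨ L.completeTheory (M.C i₀)
    · rw [hp x i hi]
      exact (th_iff.1 hi σ).symm.trans (th_iff.1 (hD x).2.2 σ)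
    · rw [hn x i hi]
  · have h1 := he i₀
    rw [hp x i₀ h0] at h1
    by_cases hi : M.C (e i₀) ⊨ L.completeTheory (M.C i₀)
    · rw [hp y _ hi] at h1
      exact hiso x y h1
    · rw [hn y _ hi] at h1
      exact absurd (th_of_iso (Y := D x) (Z := M.C (e i₀)) h1 (hD x).2.2) hi

/-- the theory of a class -/
theorem clsTheory_eq [IsEmpty (L.Relations 0)] (M : SM h) (x : M.S) :
    clsTheory ε x = L.completeTheory (M.C x.1) := by
  obtain ⟨i, a⟩ := x
  let g : M.C i → cls ε (inn (crossOf h) i a) := fun b =>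
    ⟨inn _ i b, (M.dfs.eq (inn _ i a) (inn _ i b)).2 rfl⟩
  have gi : Function.Injective g := fun b c hbc => inn_inj (congrArg Subtype.val hbc)
  have gs : Function.Surjective g := by
    rintro ⟨y, hy⟩
    obtain ⟨b, rfl⟩ := eq_inn y ((M.dfs.eq (inn _ i a) y).1 hy).symm
    exact ⟨b, rfl⟩
  let f : M.C i ≃[L] cls ε (inn (crossOf h) i a) :=
    { toEquiv := Equiv.ofBijective g ⟨gi, gs⟩
      map_fun' := fun f => isEmptyElim f
      map_rel' := fun {n} R t => by
        have h1 := relMap_in (δ := crossOf h) (pos_of_rel R) R i t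
        exact h1 }
  exact (StrongHomClass.elementarilyEquivalent f).symm

/-- the theory of the class has several countable models -/
def IsBad (M : SM h) (i : M.I) : Prop := ¬ OneModel (L.completeTheory (M.C i))

/-- the preorder -/
def Lq (M : SM h) (i j : M.I) : Prop := Structure.RelMap le ![i, j]

theorem lq_iff (M : SM h) (x y : M.S) : Tr (θ 2 le) ![x, y] ↔ Lq M x.1 y.1 := by
  have h1 := M.dfs.rel 2 le ![x, y]
  have e1 : (fun l => (![x, y] l).1) = ![x.1, y.1] := by
    funext l
    fin_cases l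
    · rfl
    · rfl
  rw [e1] at h1
  exact h1

/-- a point of a class -/
noncomputable def pt (M : SM h) (i : M.I) : M.S := inn _ i (Classical.arbitrary (M.C i))

theorem bad_pt [IsEmpty (L.Relations 0)] {M : SM h} {i : M.I} (hi : IsBad M i) :
    ¬ OneModel (clsTheory ε (pt M i)) := by
  rw [clsTheory_eq]
  exact hi

theorem cls_pt [IsEmpty (L.Relations 0)] {M : SM h} {i j : M.I}
    (hij : L.completeTheory (M.C i) = L.completeTheory (M.C j)) :
    clsTheory ε (pt M i) = clsTheory ε (pt M j) := by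
  rw [clsTheory_eq, clsTheory_eq]
  exact hij

theorem lq_total [IsEmpty (L.Relations 0)] {M : SM h} {i j : M.I} (hi : IsBad M i)
    (hij : L.completeTheory (M.C i) = L.completeTheory (M.C j)) : Lq M i j ∨ Lq M j i :=
  (h.total M.S M.model (pt M i) (pt M j) (bad_pt hi) (cls_pt hij)).imp (lq_iff M _ _).1
    (lq_iff M _ _).1

theorem lq_trans [IsEmpty (L.Relations 0)] {M : SM h} {i j k : M.I} (hi : IsBad M i)
    (hij : L.completeTheory (M.C i) = L.completeTheory (M.C j))
    (hjk : L.completeTheory (M.C j) = L.completeTheory (M.C k)) (h1 : Lq M i j)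
    (h2 : Lq M j k) : Lq M i k :=
  (lq_iff M (pt M i) (pt M k)).1 (h.trans M.S M.model (pt M i) (pt M j) (pt M k) (bad_pt hi)
    (cls_pt hij) (cls_pt hjk) ((lq_iff M _ _).2 h1) ((lq_iff M _ _).2 h2))

open Classical in
/-- the classes can be exchanged -/
theorem rel_swap [IsEmpty (L.Relations 0)] {M : SM h} {i j : M.I} (hi : IsBad M i)
    (hij : L.completeTheory (M.C i) = L.completeTheory (M.C j)) (h1 : Lq M i j) (h2 : Lq M j i)
    {n : ℕ} (Q : LQ.Relations n) (t : Fin n → M.I) :
    Structure.RelMap Q (Equiv.swap i j ∘ t) ↔ Structure.RelMap Q t := by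
  have key : ∀ t : Fin n → M.I, Structure.RelMap Q t →
      Structure.RelMap Q (Equiv.swap i j ∘ t) := by
    intro t ht
    have h3 := h.exch M.S M.model (pt M i) (pt M j) (bad_pt hi) (cls_pt hij)
      ((lq_iff M _ _).2 h1)
      ((lq_iff M _ _).2 h2) n Q (fun l => pt M (t l)) (fun l => pt M (Equiv.swap i j (t l)))
      (fun l => by
        have hc : ∀ k k' : M.I, pt M k' ∈ cls ε (pt M k) ↔ k = k' := fun k k' =>
          M.dfs.eq (pt M k) (pt M k')
        unfold Exchange
        rw [hc, hc, hc, hc, hc]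
        by_cases e1 : i = t l
        · refine Or.inl ⟨e1, ?_⟩
          rw [← e1, Equiv.swap_apply_left]
        · by_cases e2 : j = t l
          · refine Or.inr (Or.inl ⟨e2, ?_⟩)
            rw [← e2, Equiv.swap_apply_right]
          · refine Or.inr (Or.inr ⟨e1, e2, ?_⟩)
            rw [Equiv.swap_apply_of_ne_of_ne (Ne.symm e1) (Ne.symm e2)])
      ((M.dfs.rel n Q fun l => pt M (t l)).2 ht)
    exact (M.dfs.rel n Q fun l => pt M (Equiv.swap i j (t l))).1 h3
  refine ⟨fun h3 => ?_, key t⟩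
  have h4 := key _ h3
  have e1 : (Equiv.swap i j ∘ Equiv.swap i j ∘ t) = t := by
    funext l
    simp
  rwa [e1] at h4

theorem map_lq {M N : SM h} (e : M.I ≃[LQ] N.I) (i j : M.I) :
    Lq M i j ↔ Lq N (e i) (e j) := by
  unfold Lq
  rw [← e.map_rel, comp_pair]

/-- isomorphisms of the index structures -/
theorem ix_of_iso {M N : SM h} (e : M.I ≃[LQ] N.I)
    (he : ∀ i, Nonempty (M.C i ≃[L] N.C (e i))) : Nonempty (M.X ≃[LI L LQ] N.X) := by
  refine ⟨⟨e.toEquiv, fun f => Empty.elim f, fun {n} R t => ?_⟩⟩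
  change IxRel L LQ n at R
  cases R with
  | q Q => exact e.map_rel Q t
  | p σ =>
    obtain ⟨f⟩ := he (un (t 0))
    have h1 := tr_iso f σ Fin.elim0
    have e1 : (f ∘ Fin.elim0 : Fin 0 → N.C (e (un (t 0)))) = Fin.elim0 := Subsingleton.elim _ _
    rw [e1] at h1
    exact h1

/-- countable models of the theory of the index structure are index structures -/
theorem exists_SM [IsEmpty (L.Relations 0)] (hL : Countable L.Symbols) (M : SM h) {K : Type}
    [(LI L LQ).Structure K] [Nonempty K] [Countable K]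
    (hK : K ⊨ (LI L LQ).completeTheory M.X) : ∃ N : SM h, Nonempty (K ≃[LI L LQ] N.X) := by
  have h1 : EEq (LI L LQ) (Fin.elim0 : Fin 0 → Ix L LQ M.C) (Fin.elim0 : Fin 0 → K) :=
    eeq_elim0 (th_iff.1 hK) _ _
  obtain ⟨D, iD, h2, h3, h4⟩ := exists_family hL h1
  let iQ : LQ.Structure K := redLQ (L := L) K
  obtain ⟨f⟩ := nonempty_ixEquiv D h4
  have h5 : EEq (LI L LQ) (Fin.elim0 : Fin 0 → Ix L LQ M.C) (Fin.elim0 : Fin 0 → Ix L LQ D) :=
    fun φ => (h1 φ).trans (eeq_elim0_of_iso f φ)
  exact ⟨⟨K, D, iQ, iD, inferInstance, inferInstance, h2, h3,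
    dfs_of_eeq (finDep_crossOf h) h5 M.dfs, model_of_eeq (finDep_crossOf h) h5 M.model⟩, ⟨f⟩⟩

/-- the theory of the index structure has few countable models -/
theorem few_index [IsEmpty (L.Relations 0)] (hL : Countable L.Symbols) (hfew : Few T)
    (M : SM h) : Few ((LI L LQ).completeTheory M.X) := by
  rintro ⟨K, str, hK, hiso⟩
  have h1 : ∀ x, ∃ N : SM h, Nonempty (K x ≃[LI L LQ] N.X) := by
    intro x
    obtain ⟨i1, i2, i3⟩ := hK x
    exact exists_SM hL M i3
  choose N hN using h1
  refine hfew ⟨fun x => (N x).S, fun x => inferInstance,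
    fun x => ⟨inferInstance, inferInstance, (N x).model⟩, fun x y hxy => hiso x y ?_⟩
  obtain ⟨f⟩ := hxy
  obtain ⟨e, he⟩ := iso_sum (N x).dfs (N y).dfs f
  obtain ⟨f1⟩ := ix_of_iso e he
  obtain ⟨f2⟩ := hN x
  obtain ⟨f3⟩ := hN y
  exact ⟨f3.symm.comp (f1.comp f2)⟩

end Pool.Agent.TH74.Gen
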