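import Mathlib.Order.OrderIsoNat
import Mathlib.Order.Hom.Basic
import Mathlib.Data.Set.Finite.Basic
import Mathlib.Order.Interval.Set.Basic
import Mathlib.Data.Fintype.EquivFin

set_option autoImplicit false

/-!
# Colorings of infinite linear orders

An infinite linear order has a family of subsets, indexed by the Cantor space, such that no
automorphism maps a subset of the family to another one.
-/

namespace Pool.Agent.TH74.Gen

/-- the version for orders with an increasing sequence -/
theorem exists_colorings_mono {J : Type} [LinearOrder J] (f : ℕ → J) (hf : StrictMono f) :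
    ∃ U : (ℕ → Bool) → Set J, ∀ (x y : ℕ → Bool) (e : J ≃o J),
      (∀ i, i ∈ U x ↔ e i ∈ U y) → x = y := by
  let U : (ℕ → Bool) → Set J := fun x =>
    {j | ∃ n, j = f (3 * n) ∨ (x n = true ∧ f (3 * n) ≤ j ∧ j ≤ f (3 * n + 1))}
  -- the left end points
  let Lp : Set J → Set J := fun V => {u | u ∈ V ∧ ∀ c < u, ∃ d, c ≤ d ∧ d < u ∧ d ∉ V}
  have hloc : ∀ x j, j ∈ U x → ∃ n, f (3 * n) ≤ j ∧ j ≤ f (3 * n + 1) := by
    rintro x j ⟨n, rfl | ⟨-, h1, h2⟩⟩
    · exact ⟨n, le_rfl, hf.monotone (by omega)⟩
    · exact ⟨n, h1, h2⟩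
  -- points between the blocks
  have hgap : ∀ x n j, f (3 * n + 1) < j → j < f (3 * n + 3) → j ∉ U x := by
    intro x n j h1 h2 h3
    obtain ⟨m, h4, h5⟩ := hloc x j h3
    have h6 : 3 * n + 1 < 3 * m + 1 := hf.lt_iff_lt.1 (h1.trans_le h5)
    have h7 : 3 * m < 3 * n + 3 := hf.lt_iff_lt.1 (h4.trans_lt h2)
    omega
  have hlow : ∀ x j, j < f 0 → j ∉ U x := by
    intro x j h1 h3
    obtain ⟨m, h4, h5⟩ := hloc x j h3
    have h7 : 3 * m < 0 := hf.lt_iff_lt.1 (h4.trans_lt h1)
    omega
  have hL : ∀ x, Lp (U x) = Set.range fun n => f (3 * n) := by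
    intro x
    ext u
    constructor
    · rintro ⟨⟨n, rfl | ⟨hx, h1, h2⟩⟩, h3⟩
      · exact ⟨n, rfl⟩
      · rcases h1.eq_or_lt with h1 | h1
        · exact ⟨n, h1⟩
        · obtain ⟨d, h4, h5, h6⟩ := h3 _ h1
          exact absurd ⟨n, Or.inr ⟨hx, h4, h5.le.trans h2⟩⟩ h6
    · rintro ⟨n, rfl⟩
      refine ⟨⟨n, Or.inl rfl⟩, fun c hc => ?_⟩
      cases n with
      | zero => exact ⟨c, le_rfl, hc, hlow x c hc⟩
      | succ n =>
        have e1 : 3 * (n + 1) = 3 * n + 3 := by omega
        simp only [e1] at hc ⊢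
        rcases le_or_gt c (f (3 * n + 2)) with h1 | h1
        · exact ⟨f (3 * n + 2), h1, hf (by omega), hgap x n _ (hf (by omega)) (hf (by omega))⟩
        · exact ⟨c, le_rfl, hc, hgap x n c ((hf (by omega)).trans h1) hc⟩
  refine ⟨U, fun x y e he => ?_⟩
  have heL : ∀ j, j ∈ Lp (U x) ↔ e j ∈ Lp (U y) := by
    intro j
    constructor
    · rintro ⟨h1, h2⟩
      refine ⟨(he j).1 h1, fun c hc => ?_⟩
      obtain ⟨d, h3, h4, h5⟩ := h2 (e.symm c) (by
        rw [← e.lt_iff_lt, e.apply_symm_apply]
        exact hc)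
      refine ⟨e d, ?_, e.lt_iff_lt.2 h4, fun h6 => h5 ((he d).2 h6)⟩
      rw [← e.le_iff_le, e.apply_symm_apply] at h3
      exact h3
    · rintro ⟨h1, h2⟩
      refine ⟨(he j).2 h1, fun c hc => ?_⟩
      obtain ⟨d, h3, h4, h5⟩ := h2 (e c) (e.lt_iff_lt.2 hc)
      refine ⟨e.symm d, ?_, ?_, fun h6 => h5 ?_⟩
      · rw [← e.le_iff_le, e.apply_symm_apply]
        exact h3
      · rw [← e.lt_iff_lt, e.apply_symm_apply]
        exact h4
      · have h7 := (he _).1 h6
        rwa [e.apply_symm_apply] at h7
  have hfix : ∀ n, e (f (3 * n)) = f (3 * n) := by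
    -- both sides enumerate the same set
    have hmono : StrictMono fun n => f (3 * n) := fun m n h => hf (by omega)
    have h1 : ∀ n, ∃ m, e (f (3 * n)) = f (3 * m) := by
      intro n
      have h2 : f (3 * n) ∈ Lp (U x) := by
        rw [hL]
        exact ⟨n, rfl⟩
      rw [heL, hL] at h2
      obtain ⟨m, hm⟩ := h2
      exact ⟨m, hm.symm⟩
    have h1' : ∀ m, ∃ n, e (f (3 * n)) = f (3 * m) := by
      intro m
      have h2 : e (e.symm (f (3 * m))) ∈ Lp (U y) := by
        rw [hL, e.apply_symm_apply]
        exact ⟨m, rfl⟩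
      rw [← heL, hL] at h2
      obtain ⟨n, hn⟩ := h2
      refine ⟨n, ?_⟩
      simp only at hn
      rw [hn, e.apply_symm_apply]
    choose g hg using h1
    have hgm : StrictMono g := by
      intro m n hmn
      have h3 : e (f (3 * m)) < e (f (3 * n)) := e.lt_iff_lt.2 (hmono hmn)
      rw [hg, hg] at h3
      exact hmono.lt_iff_lt.1 h3
    have hgs : Function.Surjective g := by
      intro m
      obtain ⟨n, hn⟩ := h1' m
      refine ⟨n, ?_⟩
      rw [hg] at hn
      exact hmono.injective hn
    have hgid : ∀ n, g n = n := by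
      intro n
      refine le_antisymm ?_ (hgm.le_apply)
      by_contra h4
      rw [not_le] at h4
      obtain ⟨m, hm⟩ := hgs n
      have h5 : m < n := hgm.lt_iff_lt.1 (by rw [hm]; exact h4)
      have h6 := hgm.le_apply (x := m)
      -- the values below `n` are taken by smaller arguments
      have h7 : ∀ k, k < n + 1 → ∃ m < n, g m = k := by
        intro k hk
        obtain ⟨m', hm'⟩ := hgs k
        refine ⟨m', ?_, hm'⟩
        apply hgm.lt_iff_lt.1
        rw [hm']
        omega
      choose! r hr1 hr2 using h7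
      have h8 : ∀ k ∈ Finset.range (n + 1), r k ∈ Finset.range n := fun k hk =>
        Finset.mem_range.2 (hr1 k (Finset.mem_range.1 hk))
      obtain ⟨k, hk, k', hk', hne, heq⟩ := Finset.exists_ne_map_eq_of_card_lt_of_maps_to
        (by simp) h8
      apply hne
      rw [← hr2 k (Finset.mem_range.1 hk), ← hr2 k' (Finset.mem_range.1 hk'), heq]
    intro n
    rw [hg, hgid]
  -- reading off the coloring
  have hread : ∀ (z : ℕ → Bool) n, z n = true ↔
      ∃ c, f (3 * n) < c ∧ ∀ d, f (3 * n) ≤ d → d ≤ c → d ∈ U z := by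
    intro z n
    constructor
    · intro hz
      exact ⟨f (3 * n + 1), hf (by omega), fun d h1 h2 => ⟨n, Or.inr ⟨hz, h1, h2⟩⟩⟩
    · rintro ⟨c, hc, h1⟩
      have h2 : min c (f (3 * n + 1)) ∈ U z := h1 _ (le_min hc.le (hf.monotone (by omega)))
        (min_le_left _ _)
      have h3 : f (3 * n) < min c (f (3 * n + 1)) := lt_min hc (hf (by omega))
      obtain ⟨m, h4 | ⟨h4, h5, h6⟩⟩ := h2
      · have h7 : f (3 * m) ≤ f (3 * n + 1) := by
          rw [← h4]
          exact min_le_right _ _
        rw [h4] at h3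
        have h8 := hf.lt_iff_lt.1 h3
        have h9 := hf.le_iff_le.1 h7
        omega
      · have h7 : f (3 * m) ≤ f (3 * n + 1) := h5.trans (min_le_right _ _)
        have h8 : f (3 * n) < f (3 * m + 1) := h3.trans_le h6
        have h9 := hf.le_iff_le.1 h7
        have h10 := hf.lt_iff_lt.1 h8
        obtain rfl : m = n := by omega
        exact h4
  funext n
  rw [Bool.eq_iff_iff, hread, hread]
  constructor
  · rintro ⟨c, hc, h1⟩
    refine ⟨e c, ?_, fun d h2 h3 => ?_⟩
    · rw [← hfix n]
      exact e.lt_iff_lt.2 hc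
    · have h4 := (he (e.symm d)).1 (h1 _ (by
        rw [← e.le_iff_le, e.apply_symm_apply, hfix]
        exact h2) (by
        rw [← e.le_iff_le, e.apply_symm_apply]
        exact h3))
      rwa [e.apply_symm_apply] at h4
  · rintro ⟨c, hc, h1⟩
    refine ⟨e.symm c, ?_, fun d h2 h3 => ?_⟩
    · rw [← e.lt_iff_lt, e.apply_symm_apply, hfix]
      exact hc
    · rw [he]
      refine h1 _ ?_ ?_
      · rw [← hfix n]
        exact e.le_iff_le.2 h2
      · rw [← e.le_iff_le, e.apply_symm_apply] at h3
        exact h3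

/-- **Colorings of infinite linear orders.** -/
theorem exists_colorings (J : Type) [LinearOrder J] [Infinite J] :
    ∃ U : (ℕ → Bool) → Set J, ∀ (x y : ℕ → Bool) (e : J ≃o J),
      (∀ i, i ∈ U x ↔ e i ∈ U y) → x = y := by
  obtain ⟨g, hg⟩ := exists_increasing_or_nonincreasing_subseq (· < ·) (Infinite.natEmbedding J)
  rcases hg with hg | hg
  · exact exists_colorings_mono (fun n => Infinite.natEmbedding J (g n)) fun m n h => hg m n h
  · have h1 : StrictMono fun n => OrderDual.toDual (Infinite.natEmbedding J (g n)) := by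
      intro m n hmn
      have h2 := hg m n hmn
      rw [not_lt] at h2
      refine OrderDual.toDual_lt_toDual.2 (lt_of_le_of_ne h2 fun h3 => ?_)
      exact hmn.ne' (g.injective ((Infinite.natEmbedding J).injective h3))
    obtain ⟨U, hU⟩ := exists_colorings_mono (J := Jᵒᵈ) _ h1
    refine ⟨fun x => {j | OrderDual.toDual j ∈ U x}, fun x y e he => ?_⟩
    exact hU x y e.dual fun i => he (OrderDual.ofDual i)

/-- an automorphism of a linear order fixes the points of a finite invariant set -/
theorem fix_of_finite {J : Type} [LinearOrder J] (e : J ≃o J) (S : Set J) (hS : S.Finite)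
    (he : ∀ i, i ∈ S → e i ∈ S) (i : J) (hi : i ∈ S) : e i = i := by
  have hit : ∀ n : ℕ, (e^[n]) i ∈ S := by
    intro n
    induction n with
    | zero => exact hi
    | succ n ih =>
      rw [Function.iterate_succ_apply']
      exact he _ ih
  by_contra hne
  have hinj : Function.Injective fun n : ℕ => (e^[n]) i := by
    rcases lt_or_gt_of_ne hne with h | h
    · have h1 : StrictAnti fun n : ℕ => (e^[n]) i := by
        refine strictAnti_nat_of_succ_lt fun n => ?_
        induction n with
        | zero => exact h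
        | succ n ih =>
          have h2 := e.lt_iff_lt.2 ih
          rwa [← Function.iterate_succ_apply' e (n + 1), ← Function.iterate_succ_apply' e n] at h2
      exact h1.injective
    · have h1 : StrictMono fun n : ℕ => (e^[n]) i := by
        refine strictMono_nat_of_lt_succ fun n => ?_
        induction n with
        | zero => exact h
        | succ n ih =>
          have h2 := e.lt_iff_lt.2 ih
          rwa [← Function.iterate_succ_apply' e (n + 1), ← Function.iterate_succ_apply' e n] at h2
      exact h1.injective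
  exact Set.infinite_of_injective_forall_mem hinj hit hS

end Pool.Agent.TH74.Gen
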