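import Pool.Agent.TH74.Gen.Index
import Mathlib.Data.Finset.Sort

set_option autoImplicit false
set_option linter.unusedSectionVars false

/-!
# The numbers of the classes of a given isomorphism type
-/

namespace Pool.Agent.TH74.Gen

open FirstOrder FirstOrder.Language Pool.Agent.TH74.Martin

variable {L LQ : FirstOrder.Language.{0, 0}} [L.IsRelational] [LQ.IsRelational]
  [IsEmpty (L.Relations 0)]
  {T : L.Theory} {ε : L.BoundedFormula Empty 2} {le : LQ.Relations 2}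
  {θ : ∀ n : ℕ, LQ.Relations n → L.BoundedFormula Empty n} {h : IsGenSum T ε le θ}

/-- **The index structures are isomorphic.** -/
theorem transfer_ix (hL : Countable L.Symbols) (hfew : Few T) (M N : SM h)
    (hMN : ∀ φ : L1 T 0, φ.Sat (Fin.elim0 : Fin 0 → M.S) → φ.Sat (Fin.elim0 : Fin 0 → N.S))
    (hm : MartinFor ((LI L LQ).completeTheory M.X)) : Nonempty (M.X ≃[LI L LQ] N.X) := by
  refine hm (few_index hL hfew M) M.X N.X (th_iff.2 fun σ => Iff.rfl) fun φ hφ => ?_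
  obtain ⟨ψ, hψ⟩ := exists_trI hfew (fun b => match b with
    | false => M
    | true => N) φ
  have h1 := hψ false Fin.elim0
  have h2 := hψ true Fin.elim0
  have e1 : (fs ∘ (Fin.elim0 : Fin 0 → M.S)) = Fin.elim0 := Subsingleton.elim _ _
  have e2 : (fs ∘ (Fin.elim0 : Fin 0 → N.S)) = Fin.elim0 := Subsingleton.elim _ _
  change ψ.Sat (Fin.elim0 : Fin 0 → M.S) ↔ φ.Sat (fs ∘ (Fin.elim0 : Fin 0 → M.S)) at h1
  change ψ.Sat (Fin.elim0 : Fin 0 → N.S) ↔ φ.Sat (fs ∘ (Fin.elim0 : Fin 0 → N.S)) at h2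
  rw [e1] at h1
  rw [e2] at h2
  exact h2.1 (hMN ψ (h1.2 hφ))

theorem eeq_of_ixEquiv {M N : SM h} (e : M.X ≃[LI L LQ] N.X) {k : ℕ} (t : Fin k → M.X) :
    EEq (LI L LQ) t (e ∘ t) := fun φ => (tr_iso e φ t).symm

theorem itp_ixEquiv {M N : SM h} (e : M.X ≃[LI L LQ] N.X) (i : M.I) :
    itp M i = itp N (un (e (ix L LQ M.C i))) :=
  itp_eq (eeq_of_ixEquiv e fun _ => ix L LQ M.C i)

/-- the preorder is determined by the types -/
theorem lq_of_eeq {M N : SM h} {k : ℕ} {t : Fin k → M.X} {u : Fin k → N.X}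
    (htu : EEq (LI L LQ) t u) (j l : Fin k) :
    Lq M (un (t j)) (un (t l)) ↔ Lq N (un (u j)) (un (u l)) := by
  have h1 := htu (relF (qs (L := L) le) ![j, l])
  rw [tr_relF, tr_relF, comp_pair, comp_pair, relMap_q, relMap_q] at h1
  have e1 : ∀ (W : SM h) (a b : W.X), (fun n => un (![a, b] n)) = ![un a, un b] := by
    intro W a b
    funext n
    fin_cases n
    · rfl
    · rfl
  rw [e1, e1] at h1
  exact h1

/-- the isomorphism of the reducts -/
def toLQ {M N : SM h} (e : M.X ≃[LI L LQ] N.X) : M.I ≃[LQ] N.I where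
  toEquiv := e.toEquiv
  map_fun' := fun f => isEmptyElim f
  map_rel' := fun Q t => e.map_rel (qs (L := L) Q) t

theorem ct_toLQ {M N : SM h} (e : M.X ≃[LI L LQ] N.X) (i : M.I) :
    L.completeTheory (M.C i) = L.completeTheory (N.C (toLQ e i)) :=
  ct_congr (same_of_itp (itp_ixEquiv e i))

/-- the classes have the same theory, and they are equivalent with respect to the preorder -/
def Eqv (M : SM h) (i j : M.I) : Prop :=
  L.completeTheory (M.C i) = L.completeTheory (M.C j) ∧ Lq M i j ∧ Lq M j i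

theorem Eqv.refl {M : SM h} {i : M.I} (hi : IsBad M i) : Eqv M i i :=
  ⟨rfl, (lq_total hi rfl).elim id id, (lq_total hi rfl).elim id id⟩

theorem Eqv.symm {M : SM h} {i j : M.I} (hij : Eqv M i j) : Eqv M j i :=
  ⟨hij.1.symm, hij.2.2, hij.2.1⟩

theorem Eqv.bad {M : SM h} {i j : M.I} (hij : Eqv M i j) (hi : IsBad M i) : IsBad M j :=
  (bad_congr hij.1).1 hi

theorem Eqv.trans {M : SM h} {i j k : M.I} (hi : IsBad M i) (hij : Eqv M i j)
    (hjk : Eqv M j k) : Eqv M i k :=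
  ⟨hij.1.trans hjk.1, lq_trans hi hij.1 hjk.1 hij.2.1 hjk.2.1,
    lq_trans (hjk.bad (hij.bad hi)) hjk.1.symm hij.1.symm hjk.2.2 hij.2.2⟩

theorem Eqv.map {M N : SM h} (e : M.X ≃[LI L LQ] N.X) {i j : M.I} :
    Eqv M i j ↔ Eqv N (toLQ e i) (toLQ e j) := by
  unfold Eqv
  rw [ct_toLQ e i, ct_toLQ e j, map_lq (toLQ e) i j, map_lq (toLQ e) j i]

theorem q_eq_iff {M : SM h} {S : L.Theory} (K : LQt M S)
    (a b : {i : M.I // L.completeTheory (M.C i) = S}) : K.q a = K.q b ↔ Eqv M a.1 b.1 := by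
  rw [le_antisymm_iff, ← K.le_iff, ← K.le_iff]
  exact ⟨fun h1 => ⟨a.2.trans b.2.symm, h1⟩, fun h1 => h1.2⟩

/-- **The numbers of classes.** -/
theorem transfer_count (hfew : Few T) (M N : SM h)
    (hMN : ∀ φ : L1 T 0, φ.Sat (Fin.elim0 : Fin 0 → M.S) → φ.Sat (Fin.elim0 : Fin 0 → N.S))
    (e : M.X ≃[LI L LQ] N.X) {i : M.I} (hi : IsBad M i)
    (hm : MartinFor (L.completeTheory (M.C i))) {k : ℕ}
    (x : Fin k → M.I) (hx : Function.Injective x) (hxc : ∀ l, Eqv M i (x l))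
    (hty : ∀ l, ity (L := L) (M.C (x l)) = ity (L := L) (M.C i)) :
    ∃ y : Fin k → N.I, Function.Injective y ∧ (∀ l, Eqv N (toLQ e i) (y l)) ∧
        ∀ l, ity (L := L) (N.C (y l)) = ity (L := L) (M.C i) := by
  classical
  obtain ⟨K⟩ := exists_LQt M hi
  obtain ⟨K'⟩ := exists_LQt N hi
  obtain ⟨f, hf⟩ := exists_ind K K' (toLQ e) (ct_toLQ e)
  have hfinJ : Finite K.J := finite_J hfew M hi K
  have hA : {c | ∃ i' : {j : M.I // L.completeTheory (M.C j) = L.completeTheory (M.C i)},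
      K.q i' = c ∧ itp M i'.1 = itp M i}.Finite := Set.toFinite _
  let s : Finset K.J := hA.toFinset
  have hs : ∀ c, c ∈ s ↔ ∃ i' : {j : M.I // L.completeTheory (M.C j) =
      L.completeTheory (M.C i)}, K.q i' = c ∧ itp M i'.1 = itp M i :=
    fun c => hA.mem_toFinset
  let ι : Fin s.card ↪o K.J := s.orderEmbOfFin rfl
  have hι : ∀ l, ι l ∈ s := fun l => s.orderEmbOfFin_mem rfl l
  obtain ⟨l₀, hl₀⟩ : ∃ l₀, ι l₀ = K.q ⟨i, rfl⟩ := by
    have h1 : K.q ⟨i, rfl⟩ ∈ Set.range (s.orderEmbOfFin rfl) := by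
      rw [Finset.range_orderEmbOfFin]
      exact (hs _).2 ⟨⟨i, rfl⟩, rfl, rfl⟩
    exact h1
  choose u hu1 hu2 using fun l => (hs _).1 (hι l)
  obtain ⟨a, ha1, ha2⟩ : ∃ a : Fin (s.card + k) → M.S,
      (∀ l, a (Fin.castAdd k l) = pt M (u l).1) ∧ ∀ l, a (Fin.natAdd s.card l) = pt M (x l) :=
    ⟨Fin.addCases (fun l => pt M (u l).1) fun l => pt M (x l), fun l => Fin.addCases_left l,
      fun l => Fin.addCases_right l⟩
  obtain ⟨χ, hχ1, hχ2⟩ := exists_sep (X := M.C i) hm (few_class hfew M i)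
    (finite_ity hfew N (M.C i))
  have hχx : ∀ l, χ.Sat (Fin.elim0 : Fin 0 → M.C (x l)) := by
    intro l
    obtain ⟨g⟩ := ity_eq.1 (hty l).symm
    have h4 := (L1.sat_iso g χ Fin.elim0).2 hχ1
    have e1 : (g ∘ Fin.elim0 : Fin 0 → M.C (x l)) = Fin.elim0 := Subsingleton.elim _ _
    rwa [e1] at h4
  let p : Set (L.BoundedFormula Empty (s.card + k)) := {φ | Tr φ a}
  have hp : IsCompleteType T p :=
    ⟨M.S, inferInstance, inferInstance, inferInstance, a, M.model, rfl⟩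
  obtain ⟨ψ₁, hψ₁⟩ := exists_conjL (T := T) (n := s.card + k) k
    fun l => (trL h (itp M (x l)) (n := 0) (Fin.natAdd s.card l) χ : L1 T (s.card + k + 0))
  obtain ⟨ψ, hψ⟩ := exists_exL (T := T) (s.card + k) (.and (.conj p hp id) ψ₁)
  have h1 : ψ.Sat (Fin.elim0 : Fin 0 → M.S) := by
    rw [hψ]
    refine ⟨a, fun φ hφ => hφ, (hψ₁ _ a).2 fun l => ?_⟩
    exact (sat_trL M (i := x l) rfl (Fin.natAdd s.card l) χ a Fin.elim0 (fun j => j.elim0)
      (congrArg Sigma.fst (ha2 l))).2 (hχx l)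
  have h2 := hMN ψ h1
  rw [hψ] at h2
  obtain ⟨b, hb1, hb2⟩ := h2
  rw [hψ₁] at hb2
  have hab : EEq L a b := eeq_of_tp fun φ hφ => hb1 φ hφ
  have hfs := EEq.fs M.dfs N.dfs hab
  have hb : ∀ j, itp M (a j).1 = itp N (b j).1 := fun j =>
    itp_eq (hfs.comp inferInstance fun _ : Fin 1 => j)
  have hct : ∀ j, L.completeTheory (M.C (a j).1) = L.completeTheory (N.C (b j).1) := fun j =>
    ct_congr (same_of_itp (hb j))
  have ha1' : ∀ l, (a (Fin.castAdd k l)).1 = (u l).1 := fun l => congrArg Sigma.fst (ha1 l)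
  have ha2' : ∀ l, (a (Fin.natAdd s.card l)).1 = x l := fun l => congrArg Sigma.fst (ha2 l)
  have haB : ∀ j, L.completeTheory (M.C (a j).1) = L.completeTheory (M.C i) := by
    intro j
    refine Fin.addCases (fun l => ?_) (fun l => ?_) j
    · rw [ha1']
      exact (u l).2
    · rw [ha2']
      exact (hxc l).1.symm
  have hbB : ∀ j, L.completeTheory (N.C (b j).1) = L.completeTheory (M.C i) := fun j =>
    (hct j).symm.trans (haB j)
  have hord : ∀ j l, K.q ⟨(a j).1, haB j⟩ ≤ K.q ⟨(a l).1, haB l⟩ ↔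
      K'.q ⟨(b j).1, hbB j⟩ ≤ K'.q ⟨(b l).1, hbB l⟩ := by
    intro j l
    rw [← K.le_iff, ← K'.le_iff]
    exact lq_of_eeq hfs j l
  have hqa1 : ∀ l, K.q ⟨(a (Fin.castAdd k l)).1, haB _⟩ = ι l := fun l =>
    (congrArg K.q (Subtype.ext (ha1' l))).trans (hu1 l)
  have hqa2 : ∀ l, K.q ⟨(a (Fin.natAdd s.card l)).1, haB _⟩ = ι l₀ := by
    intro l
    rw [hl₀, q_eq_iff]
    change Eqv M (a (Fin.natAdd s.card l)).1 i
    rw [ha2']
    exact (hxc l).symm
  have hmem : ∀ j : {j : N.I // L.completeTheory (N.C j) = L.completeTheory (M.C i)},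
      itp N j.1 = itp M i → K'.q j ∈ s.map f.toEquiv.toEmbedding := by
    intro j hj
    obtain ⟨j', hj'⟩ : ∃ j', toLQ e j' = j.1 := (toLQ e).surjective j.1
    have h4 : L.completeTheory (N.C (toLQ e j')) = L.completeTheory (M.C i) := by
      rw [hj']
      exact j.2
    have h3 : L.completeTheory (M.C j') = L.completeTheory (M.C i) := (ct_toLQ e j').trans h4
    refine Finset.mem_map.2 ⟨K.q ⟨j', h3⟩, (hs _).2 ⟨⟨j', h3⟩, rfl, ?_⟩, ?_⟩
    · refine (itp_ixEquiv e j').trans ?_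
      rw [← hj, ← hj']
      rfl
    · refine (hf j' h3 h4).trans (congrArg K'.q (Subtype.ext hj'))
  have hcard : (s.map f.toEquiv.toEmbedding).card = s.card := Finset.card_map _
  have g1 := Finset.orderEmbOfFin_unique hcard (f := fun l => f (ι l))
    (fun l => Finset.mem_map_of_mem _ (hι l)) (fun l l' hl => f.strictMono (ι.strictMono hl))
  have g2 := Finset.orderEmbOfFin_unique hcard
    (f := fun l => K'.q ⟨(b (Fin.castAdd k l)).1, hbB _⟩)
    (fun l => hmem _ (by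
      refine (hb _).symm.trans ?_
      rw [ha1', hu2]))
    (by
      intro l l' hl
      have h4 := hord (Fin.castAdd k l) (Fin.castAdd k l')
      have h5 := hord (Fin.castAdd k l') (Fin.castAdd k l)
      rw [hqa1, hqa1] at h4 h5
      refine lt_of_le_not_ge (h4.1 (ι.strictMono hl).le) fun h3 => ?_
      exact absurd (h5.2 h3) (not_le_of_gt (ι.strictMono hl)))
  have hei : L.completeTheory (N.C (toLQ e i)) = L.completeTheory (M.C i) :=
    (ct_toLQ e i).symm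
  have g3 : K'.q ⟨(b (Fin.castAdd k l₀)).1, hbB _⟩ = K'.q ⟨toLQ e i, hei⟩ := by
    have g4 := congrFun (g2.trans g1.symm) l₀
    rw [← hf i rfl hei, ← hl₀]
    exact g4
  refine ⟨fun l => (b (Fin.natAdd s.card l)).1, fun l l' hl => ?_, fun l => ?_,
    fun l => ?_⟩
  · apply hx
    have h3 := hfs (eqF (LI L LQ) (Fin.natAdd s.card l) (Fin.natAdd s.card l'))
    rw [tr_eqF, tr_eqF] at h3
    have h4 : (a (Fin.natAdd s.card l)).1 = (a (Fin.natAdd s.card l')).1 := h3.2 hl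
    rw [ha2', ha2'] at h4
    exact h4
  · refine (q_eq_iff K' ⟨toLQ e i, hei⟩ ⟨(b (Fin.natAdd s.card l)).1, hbB _⟩).1 ?_
    rw [← g3]
    refine le_antisymm ((hord _ _).1 ?_) ((hord _ _).1 ?_)
    · rw [hqa1, hqa2]
    · rw [hqa1, hqa2]
  · have h3 : N.C (b (Fin.natAdd s.card l)).1 ⊨ L.completeTheory (M.C i) :=
      th_iff.2 (same_of_ct (hbB _).symm)
    have h4 := (sat_trL N (i := (b (Fin.natAdd s.card l)).1)
      ((congrArg (itp M) (ha2' l)).symm.trans (hb (Fin.natAdd s.card l)))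
      (Fin.natAdd s.card l) χ b Fin.elim0 (fun j => j.elim0) rfl).1 (hb2 l)
    exact (ity_eq.2 (hχ2 _ ⟨_, h3, rfl⟩ h4)).symm

end Pool.Agent.TH74.Gen
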