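import Pool.Agent.TH74.Gen.Rel

set_option autoImplicit false
set_option linter.unusedSectionVars false

/-!
# A model is the sum of its classes; isomorphisms of sums
-/

namespace Pool.Agent.TH74.Gen

open FirstOrder FirstOrder.Language Pool.Agent.TH74.Martin

variable {L LQ : FirstOrder.Language.{0, 0}} [L.IsRelational] [LQ.IsRelational]

section

variable {T : L.Theory} {ε : L.BoundedFormula Empty 2} {le : LQ.Relations 2}
  {θ : ∀ n : ℕ, LQ.Relations n → L.BoundedFormula Empty n}

/-- the symbols which are used for `R` -/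
def symbolsOf (h : IsGenSum T ε le θ) (n : ℕ) (R : L.Relations n) :
    Set (Σ m : ℕ, LQ.Relations m) := (h.cross n R).choose

/-- the formulas which are used for `R` -/
def formsOf (h : IsGenSum T ε le θ) (n : ℕ) (R : L.Relations n) :
    Set (L.BoundedFormula Empty n) := (h.cross n R).choose_spec.choose

/-- the rule of `T` -/
def crossOf (h : IsGenSum T ε le θ) : Cross L LQ := fun n R π ρ c =>
  ∃ (M : Type) (_ : L.Structure M) (_ : Nonempty M) (_ : Countable M) (a : Fin n → M), M ⊨ T ∧
    (∀ j k, Tr ε ![a j, a k] ↔ π j k) ∧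
    (∀ Q ∈ symbolsOf h n R, ∀ s : Fin Q.1 → Fin n, Tr (θ Q.1 Q.2) (a ∘ s) ↔ ρ Q.1 Q.2 s) ∧
    (∀ φ ∈ formsOf h n R, ∀ s : Fin n → Fin n, HoldsInClass ε φ (a ∘ s) ↔ c s φ) ∧
    Structure.RelMap R a

theorem finDep_crossOf (h : IsGenSum T ε le θ) :
    FinDep (crossOf h) (symbolsOf h) (formsOf h) := by
  refine ⟨fun n R => (h.cross n R).choose_spec.choose_spec.1,
    fun n R => (h.cross n R).choose_spec.choose_spec.2.1, fun n R π ρ ρ' c c' hρ hc => ?_⟩
  constructor
  · rintro ⟨M, i1, i2, i3, a, h1, h2, h2', h3, h4⟩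
    exact ⟨M, i1, i2, i3, a, h1, h2, fun Q hQ s => (h2' Q hQ s).trans (hρ Q hQ s),
      fun φ hφ s => (h3 φ hφ s).trans (hc φ hφ s), h4⟩
  · rintro ⟨M, i1, i2, i3, a, h1, h2, h2', h3, h4⟩
    exact ⟨M, i1, i2, i3, a, h1, h2, fun Q hQ s => (h2' Q hQ s).trans (hρ Q hQ s).symm,
      fun φ hφ s => (h3 φ hφ s).trans (hc φ hφ s).symm, h4⟩

theorem relMap_iff_crossOf (h : IsGenSum T ε le θ) {M : Type} [L.Structure M] [Nonempty M]
    [Countable M] (hM : M ⊨ T) {n : ℕ} (R : L.Relations n) (a : Fin n → M)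
    (ha : ∃ j k, ¬ Tr ε ![a j, a k]) :
    Structure.RelMap R a ↔ crossOf h n R (fun j k => Tr ε ![a j, a k])
      (fun m Q s => Tr (θ m Q) (a ∘ s)) fun s φ => HoldsInClass ε φ (a ∘ s) := by
  constructor
  · intro h1
    exact ⟨M, inferInstance, inferInstance, inferInstance, a, hM, fun j k => Iff.rfl,
      fun Q _ s => Iff.rfl, fun φ _ s => Iff.rfl, h1⟩
  · rintro ⟨N, i1, i2, i3, b, h1, h2, h2', h3, h4⟩
    exact ((h.cross n R).choose_spec.choose_spec.2.2 M N hM h1 a b ha
      (fun j k => (h2 j k).symm) (fun Q hQ s => (h2' Q hQ s).symm)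
      fun φ hφ s => (h3 φ hφ s).symm).2 h4

/-- the structure of classes -/
instance classesLI (M : Type) [L.Structure M] : (LI L LQ).Structure (Classes ε θ M) :=
  classesStructure ε θ M

/-- the reduct of an index structure -/
instance classesLQ (M : Type) [L.Structure M] : LQ.Structure (Classes ε θ M) where
  funMap := fun f => isEmptyElim f
  RelMap := fun {_} Q t => Structure.RelMap (qs (L := L) Q) t

/-- the classes, as a family of structures -/
abbrev fam (ε : L.BoundedFormula Empty 2) (θ : ∀ n : ℕ, LQ.Relations n → L.BoundedFormula Empty n)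
    (M : Type) [L.Structure M] : Classes ε θ M → Type := fun s => s.1

instance (M : Type) [L.Structure M] [Countable M] : Countable (Classes ε θ M) := by
  have h1 : Function.Surjective fun a : M => (⟨cls ε a, a, rfl⟩ : Classes ε θ M) := by
    rintro ⟨s, a, rfl⟩
    exact ⟨a, rfl⟩
  exact h1.countable

instance (M : Type) [L.Structure M] [Nonempty M] : Nonempty (Classes ε θ M) :=
  ⟨⟨cls ε (Classical.arbitrary M), _, rfl⟩⟩

/-- the index structure of the family of the classes is the structure of the classes -/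
def ixEquiv (M : Type) [L.Structure M] :
    Classes ε θ M ≃[LI L LQ] Ix L LQ (fam ε θ M) where
  toEquiv := Equiv.refl _
  map_fun' := fun f => Empty.elim f
  map_rel' := fun {n} R t => by
    change IxRel L LQ n at R
    cases R with
    | q Q => exact Iff.rfl
    | p σ => exact Iff.rfl

/-- **A model is the sum of its classes.** -/
theorem exists_sum [IsEmpty (L.Relations 0)] (h : IsGenSum T ε le θ) (M : Type) [L.Structure M]
    [Nonempty M] [Countable M] (hM : M ⊨ T) :
    Dfs (crossOf h) ε θ (fam ε θ M) ∧ (∀ i, Nonempty (fam ε θ M i)) ∧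
      Nonempty (M ≃[L] Sm (crossOf h) (fam ε θ M)) := by
  have hE := h.equiv M hM
  let mk : M → Classes ε θ M := fun a => ⟨cls ε a, a, rfl⟩
  have hmk : ∀ a b : M, mk a = mk b ↔ Tr ε ![a, b] := by
    intro a b
    constructor
    · intro h1
      have h2 : cls ε a = cls ε b := congrArg Subtype.val h1
      have h3 : b ∈ cls ε b := hE.refl b
      rw [← h2] at h3
      exact h3
    · intro h1
      refine Subtype.ext (Set.ext fun c => ?_)
      exact ⟨fun h2 => hE.trans (hE.symm h1) h2, fun h2 => hE.trans h1 h2⟩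
  have hmem : ∀ (q : Classes ε θ M) (y : M), y ∈ q.1 ↔ mk y = q := by
    rintro ⟨s, a, rfl⟩ y
    change Tr ε ![a, y] ↔ mk y = mk a
    rw [← hmk]
    exact eq_comm
  let e : M ≃ Sm (crossOf h) (fam ε θ M) :=
    { toFun := fun x => inn _ (mk x) ⟨x, (hmem _ _).2 rfl⟩
      invFun := fun y => y.2.1
      left_inv := fun x => rfl
      right_inv := fun y => by
        obtain ⟨q, y, hy⟩ := y
        obtain rfl := (hmem q y).1 hy
        rfl }
  have he : ∀ (q : Classes ε θ M) (x : M) (hq : mk x = q),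
      e x = inn _ q (⟨x, (hmem _ _).2 hq⟩ : q.1) := by
    intro q x hq
    subst hq
    rfl
  have hQ : ∀ {m : ℕ} (Q : LQ.Relations m) (x : Fin m → M),
      Structure.RelMap Q (fun l => mk (x l)) ↔ Tr (θ m Q) x := by
    intro m Q x
    constructor
    · rintro ⟨y, h1, h2⟩
      exact h.inv M hM m Q y x (fun j => (hmk _ _).1 (Subtype.ext (h1 j).symm)) h2
    · intro h1
      exact ⟨x, fun j => rfl, h1⟩
  have hrel : ∀ {n : ℕ} (R : L.Relations n) (t : Fin n → M),
      Structure.RelMap R (e ∘ t) ↔ Structure.RelMap R t := by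
    intro n R t
    have hn := pos_of_rel R
    by_cases ht : ∃ j k, ¬ Tr ε ![t j, t k]
    · rw [relMap_iff_crossOf h hM R t ht, relMap_out R (e ∘ t)]
      · have e1 : (fun j k => ((e ∘ t) j).1 = ((e ∘ t) k).1) =
            fun j k => Tr ε ![t j, t k] := by
          funext j k
          exact propext (hmk (t j) (t k))
        rw [e1]
        have e3 : (fun (m : ℕ) (Q : LQ.Relations m) (s : Fin m → Fin n) =>
            Structure.RelMap Q fun l => ((e ∘ t) (s l)).1) =
            fun m Q s => Tr (θ m Q) (t ∘ s) := by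
          funext m Q s
          exact propext (hQ Q (t ∘ s))
        rw [e3]
        have e2 : ld (e ∘ t) = fun s φ => HoldsInClass ε φ (t ∘ s) := by
          funext s' φ
          refine propext ⟨?_, ?_⟩
          · rintro ⟨q, v, h1, h2⟩
            obtain ⟨s, c, rfl⟩ := q
            exact ⟨c, v, fun l => (congrArg (fun y => (y.2.1 : M)) (h1 l)).symm, h2⟩
          · rintro ⟨c, v, h1, h2⟩
            have h4 : ∀ l, mk (t (s' l)) = mk c := by
              intro l
              rw [← hmem (mk c)]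
              have h5 := (v l).2
              rwa [h1 l] at h5
            refine ⟨mk c, fun l => ⟨t (s' l), (hmem _ _).2 (h4 l)⟩, fun l => he _ _ (h4 l), ?_⟩
            exact (tr_congr_set (rfl : cls ε c = (mk c).1) φ v _ h1).1 h2
        rw [e2]
      · obtain ⟨j, k, hjk⟩ := ht
        exact ⟨j, k, fun h1 => hjk ((hmk (t j) (t k)).1 h1)⟩
    · have h1 : ∀ j, mk (t j) = mk (t ⟨0, hn⟩) := by
        intro j
        rw [hmk]
        by_contra h2
        exact ht ⟨_, _, h2⟩
      have e1 : e ∘ t = fun j => inn _ (mk (t ⟨0, hn⟩))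
          (⟨t j, (hmem _ _).2 (h1 j)⟩ : (mk (t ⟨0, hn⟩)).1) :=
        funext fun j => he _ _ (h1 j)
      rw [e1, relMap_in hn, relMap_induced]
  let f : M ≃[L] Sm (crossOf h) (fam ε θ M) :=
    ⟨e, fun f => isEmptyElim f, fun R t => hrel R t⟩
  have hf : ∀ z : M, (f z).1 = mk z := fun z => rfl
  refine ⟨⟨fun x y => ?_, fun n Q x => ?_⟩, fun q => ?_, ⟨f⟩⟩
  · have h1 := tr_iso f ε ![f.symm x, f.symm y]
    rw [comp_pair, FirstOrder.Language.Equiv.apply_symm_apply,
      FirstOrder.Language.Equiv.apply_symm_apply] at h1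
    rw [h1]
    refine (hmk _ _).symm.trans ?_
    rw [← hf, ← hf, FirstOrder.Language.Equiv.apply_symm_apply,
      FirstOrder.Language.Equiv.apply_symm_apply]
  · have h1 := tr_iso f (θ n Q) (f.symm ∘ x)
    have e1 : f ∘ f.symm ∘ x = x := by
      funext l
      exact FirstOrder.Language.Equiv.apply_symm_apply _ _
    rw [e1] at h1
    rw [h1, ← hQ]
    have e2 : (fun l => mk ((f.symm ∘ x) l)) = fun l => (x l).1 := by
      funext l
      rw [← hf, Function.comp_apply, FirstOrder.Language.Equiv.apply_symm_apply]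
    rw [e2]
  · obtain ⟨s, a, rfl⟩ := q
    exact ⟨⟨a, hE.refl a⟩⟩

end

variable {δ : Cross L LQ} {I J : Type} {C : I → Type} {D : J → Type} [LQ.Structure I]
  [LQ.Structure J] [∀ i, L.Structure (C i)] [∀ j, L.Structure (D j)]
  {ε : L.BoundedFormula Empty 2} {θ : ∀ n : ℕ, LQ.Relations n → L.BoundedFormula Empty n}

/-- sums of isomorphic structures are isomorphic -/
theorem sum_iso [IsEmpty (L.Relations 0)] (e : I ≃[LQ] J) (f : ∀ i, C i ≃[L] D (e i)) :
    Nonempty (Sm δ C ≃[L] Sm δ D) := by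
  let g : Sm δ C ≃ Sm δ D := Equiv.sigmaCongr e.toEquiv fun i => (f i).toEquiv
  have hg : ∀ i (a : C i), g (inn δ i a) = inn δ (e i) (f i a) := fun i a => rfl
  have hg1 : ∀ x : Sm δ C, (g x).1 = e x.1 := fun x => rfl
  refine ⟨⟨g, fun f => isEmptyElim f, fun {n} R t => ?_⟩⟩
  change Structure.RelMap R (g ∘ t) ↔ Structure.RelMap R t
  have hn := pos_of_rel R
  by_cases ht : ∃ j k, (t j).1 ≠ (t k).1
  · rw [relMap_out R t ht, relMap_out R (g ∘ t)]
    · have e1 : (fun j k => ((g ∘ t) j).1 = ((g ∘ t) k).1) = fun j k => (t j).1 = (t k).1 := by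
        funext j k
        refine propext ?_
        rw [Function.comp_apply, Function.comp_apply, hg1, hg1]
        exact e.injective.eq_iff
      rw [e1]
      have e3 : (fun (m : ℕ) (Q : LQ.Relations m) (s : Fin m → Fin n) =>
          Structure.RelMap Q fun l => ((g ∘ t) (s l)).1) =
          fun _ Q s => Structure.RelMap Q fun l => (t (s l)).1 := by
        funext m Q s
        exact propext (e.map_rel Q fun l => (t (s l)).1)
      rw [e3]
      have e2 : ld (L := L) (g ∘ t) = ld t := by
        funext s φ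
        refine propext ⟨?_, ?_⟩
        · rintro ⟨j, w, h1, h2⟩
          have h3 : ∀ l, (t (s l)).1 = (t (s ⟨0, hn⟩)).1 := fun l =>
            e.injective ((congrArg Sigma.fst (h1 l)).trans (congrArg Sigma.fst (h1 ⟨0, hn⟩)).symm)
          choose v hv using fun l => eq_inn (t (s l)) (h3 l)
          refine ⟨_, v, hv, ?_⟩
          obtain rfl : e (t (s ⟨0, hn⟩)).1 = j := congrArg Sigma.fst (h1 ⟨0, hn⟩)
          rw [← tr_iso (f (t (s ⟨0, hn⟩)).1) φ v]
          have e3 : (f (t (s ⟨0, hn⟩)).1) ∘ v = w := by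
            funext l
            refine inn_inj (δ := δ) ?_
            refine Eq.trans ?_ (h1 l)
            exact ((congrArg g (hv l)).trans (hg _ _)).symm
          rw [e3]
          exact h2
        · rintro ⟨i, v, h1, h2⟩
          refine ⟨e i, f i ∘ v, fun l => ?_, (tr_iso (f i) φ v).2 h2⟩
          exact (congrArg g (h1 l)).trans (hg _ _)
      rw [e2]
    · obtain ⟨j, k, hjk⟩ := ht
      exact ⟨j, k, fun h1 => hjk (e.injective h1)⟩
  · have h1 : ∀ j, (t j).1 = (t ⟨0, hn⟩).1 := by
      intro j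
      by_contra h2
      exact ht ⟨_, _, h2⟩
    choose s hs using fun j => eq_inn (t j) (h1 j)
    have e1 : t = fun j => inn δ _ (s j) := funext hs
    rw [e1]
    have e2 : (g ∘ fun j => inn δ (t ⟨0, hn⟩).1 (s j)) =
        fun j => inn δ (e (t ⟨0, hn⟩).1) ((f (t ⟨0, hn⟩).1 ∘ s) j) := rfl
    rw [e2, relMap_in hn, relMap_in hn]
    exact (f (t ⟨0, hn⟩).1).map_rel R s

/-- an isomorphism of sums is given by an isomorphism of the index structures and by
isomorphisms of the classes -/
theorem iso_sum [IsEmpty (L.Relations 0)] (hC : Dfs δ ε θ C) (hD : Dfs δ ε θ D)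
    [∀ i, Nonempty (C i)] [∀ j, Nonempty (D j)] (f : Sm δ C ≃[L] Sm δ D) :
    ∃ e : I ≃[LQ] J, ∀ i, Nonempty (C i ≃[L] D (e i)) := by
  have h1 : ∀ x y : Sm δ C, (f x).1 = (f y).1 ↔ x.1 = y.1 := by
    intro x y
    refine (hD.eq _ _).symm.trans (Iff.trans ?_ (hC.eq _ _))
    rw [← tr_iso f ε ![x, y], comp_pair]
  let pt : ∀ i, Sm δ C := fun i => inn δ i (Classical.arbitrary (C i))
  have hinj : Function.Injective fun i => (f (pt i)).1 := fun i i' h => (h1 _ _).1 h
  have hsurj : Function.Surjective fun i => (f (pt i)).1 := by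
    intro j
    refine ⟨(f.symm (inn δ j (Classical.arbitrary (D j)))).1, ?_⟩
    have h2 := (h1 (pt (f.symm (inn δ j (Classical.arbitrary (D j)))).1)
      (f.symm (inn δ j (Classical.arbitrary (D j))))).2 rfl
    rw [FirstOrder.Language.Equiv.apply_symm_apply] at h2
    exact h2
  refine ⟨⟨Equiv.ofBijective _ ⟨hinj, hsurj⟩, fun g => isEmptyElim g, fun {m} Q t => ?_⟩,
    fun i => ?_⟩
  · have h2 := tr_iso f (θ m Q) (fun l => pt (t l))
    rw [hC.rel, hD.rel] at h2
    exact h2
  change Nonempty (C i ≃[L] D (f (pt i)).1)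
  choose g hg using fun a : C i => eq_inn (f (inn δ i a)) ((h1 (inn δ i a) (pt i)).2 rfl)
  have gi : Function.Injective g := by
    intro a b hab
    refine inn_inj (δ := δ) (i := i) (f.injective ?_)
    exact (hg a).trans ((congrArg (inn δ (f (pt i)).1) hab).trans (hg b).symm)
  have gs : Function.Surjective g := by
    intro b
    have h2 : (f.symm (inn δ (f (pt i)).1 b)).1 = i := by
      have h3 := h1 (f.symm (inn δ (f (pt i)).1 b)) (pt i)
      rw [FirstOrder.Language.Equiv.apply_symm_apply] at h3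
      exact h3.1 rfl
    obtain ⟨a, ha⟩ := eq_inn _ h2
    refine ⟨a, inn_inj (δ := δ) (i := (f (pt i)).1) ?_⟩
    refine (hg a).symm.trans ?_
    rw [← ha, FirstOrder.Language.Equiv.apply_symm_apply]
  refine ⟨⟨Equiv.ofBijective g ⟨gi, gs⟩, fun f => isEmptyElim f, fun {n} R t => ?_⟩⟩
  change Structure.RelMap R (g ∘ t) ↔ Structure.RelMap R t
  rw [← relMap_in (δ := δ) (pos_of_rel R), ← relMap_in (δ := δ) (pos_of_rel R), ← f.map_rel]
  have e1 : (fun j => inn δ (f (pt i)).1 ((g ∘ t) j)) = f ∘ fun j => inn δ i (t j) := by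
    funext j
    exact (hg (t j)).symm
  rw [e1]

end Pool.Agent.TH74.Gen
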