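import Pool.Agent.TH74.Martin.Defs

set_option autoImplicit false

/-!
# Definitions: index structures and generalised sums
-/

namespace Pool.Agent.TH74.Gen

open FirstOrder FirstOrder.Language Pool.Agent.TH74.Martin

/-- The relation symbols of the language of the index structures: the symbols of `LQ`, and a unary
predicate for every sentence of `L`. -/
inductive IxRel (L LQ : FirstOrder.Language.{0, 0}) : ℕ → Type
  | q {n : ℕ} (Q : LQ.Relations n) : IxRel L LQ n
  | p (σ : L.BoundedFormula Empty 0) : IxRel L LQ 1

/-- The language of the index structures. -/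
def LI (L LQ : FirstOrder.Language.{0, 0}) : FirstOrder.Language.{0, 0} :=
  ⟨fun _ => Empty, IxRel L LQ⟩

variable {L LQ : FirstOrder.Language.{0, 0}}

/-- The set of the classes of `ε` in `M`. -/
def Classes (ε : L.BoundedFormula Empty 2)
    (_θ : ∀ n : ℕ, LQ.Relations n → L.BoundedFormula Empty n) (M : Type) [L.Structure M] : Type :=
  {s : Set M // ∃ a, s = cls ε a}

/-- The index structure of `M`: the symbol `Q` of `LQ` is interpreted by means of the formula
`θ_Q`, and the predicate `σ` holds of the classes in which `σ` is true. -/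
def classesStructure [L.IsRelational] (ε : L.BoundedFormula Empty 2)
    (θ : ∀ n : ℕ, LQ.Relations n → L.BoundedFormula Empty n) (M : Type) [L.Structure M] :
    (LI L LQ).Structure (Classes ε θ M) where
  funMap := fun f => Empty.elim f
  RelMap := fun {n} (R : IxRel L LQ n) t =>
    match n, R, t with
    | n, .q Q, t => ∃ x : Fin n → M, (∀ j, (t j).1 = cls ε (x j)) ∧ (θ n Q).Realize Empty.elim x
    | _, .p σ, t => @BoundedFormula.Realize L (t 0).1 (induced (t 0).1) Empty 0 σ Empty.elim
        Fin.elim0

/-- The complete theory of the index structure of `M`. -/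
def indexTheory [L.IsRelational] (ε : L.BoundedFormula Empty 2)
    (θ : ∀ n : ℕ, LQ.Relations n → L.BoundedFormula Empty n) (M : Type) [L.Structure M] :
    (LI L LQ).Theory :=
  @completeTheory (LI L LQ) (Classes ε θ M) (classesStructure ε θ M)

/-- `S` has at most one countable model. -/
def OneModel (S : L.Theory) : Prop :=
  ∀ (M N : Type) [L.Structure M] [L.Structure N] [Nonempty M] [Nonempty N] [Countable M]
    [Countable N], M ⊨ S → N ⊨ S → Nonempty (M ≃[L] N)

/-- The class of `y` is obtained from the class of `x` by exchanging the classes of `a` and `b`. -/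
def Exchange (ε : L.BoundedFormula Empty 2) {M : Type} [L.Structure M] (a b x y : M) : Prop :=
  (x ∈ cls ε a ∧ y ∈ cls ε b) ∨ (x ∈ cls ε b ∧ y ∈ cls ε a) ∨
    (x ∉ cls ε a ∧ x ∉ cls ε b ∧ y ∈ cls ε x)

/-- The models of `T` are generalised sums of their `ε`-classes: `ε(x₀, x₁)` defines an equivalence
relation, the formulas `θ_Q` are invariant under it, and the truth value of a symbol `R` at a tuple
which is not contained in one class depends only on finitely many of the formulas `ε`, `θ_Q` for
subtuples of the tuple and on the truth values of finitely many formulas for the tuples formed of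
its entries inside the classes, evaluated in the classes. Moreover, if a theory `S` has several
countable models, then `θ_le` is a total preorder of the set of the classes with theory `S`, and any
two classes with theory `S` which are equivalent with respect to this preorder can be exchanged:
the formulas `θ_Q` remain true if the two classes are exchanged. -/
structure IsGenSum [L.IsRelational] (T : L.Theory) (ε : L.BoundedFormula Empty 2)
    (le : LQ.Relations 2) (θ : ∀ n : ℕ, LQ.Relations n → L.BoundedFormula Empty n) : Prop where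
  equiv : ∀ (M : Type) [L.Structure M] [Nonempty M] [Countable M], M ⊨ T →
    Equivalence fun a b : M => ε.Realize Empty.elim ![a, b]
  inv : ∀ (M : Type) [L.Structure M] [Nonempty M] [Countable M], M ⊨ T →
    ∀ (n : ℕ) (Q : LQ.Relations n) (a b : Fin n → M),
      (∀ j, ε.Realize Empty.elim ![a j, b j]) → (θ n Q).Realize Empty.elim a →
        (θ n Q).Realize Empty.elim b
  total : ∀ (M : Type) [L.Structure M] [Nonempty M] [Countable M], M ⊨ T →
    ∀ a b : M, ¬ OneModel (clsTheory ε a) → clsTheory ε a = clsTheory ε b →
      (θ 2 le).Realize Empty.elim ![a, b] ∨ (θ 2 le).Realize Empty.elim ![b, a]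
  trans : ∀ (M : Type) [L.Structure M] [Nonempty M] [Countable M], M ⊨ T →
    ∀ a b c : M, ¬ OneModel (clsTheory ε a) → clsTheory ε a = clsTheory ε b →
      clsTheory ε b = clsTheory ε c → (θ 2 le).Realize Empty.elim ![a, b] →
        (θ 2 le).Realize Empty.elim ![b, c] → (θ 2 le).Realize Empty.elim ![a, c]
  exch : ∀ (M : Type) [L.Structure M] [Nonempty M] [Countable M], M ⊨ T →
    ∀ a b : M, ¬ OneModel (clsTheory ε a) → clsTheory ε a = clsTheory ε b →
      (θ 2 le).Realize Empty.elim ![a, b] → (θ 2 le).Realize Empty.elim ![b, a] →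
        ∀ (n : ℕ) (Q : LQ.Relations n) (x y : Fin n → M), (∀ j, Exchange ε a b (x j) (y j)) →
          (θ n Q).Realize Empty.elim x → (θ n Q).Realize Empty.elim y
  cross : ∀ (n : ℕ) (R : L.Relations n), ∃ (Ψ : Set (Σ m : ℕ, LQ.Relations m))
    (Φ : Set (L.BoundedFormula Empty n)), Ψ.Finite ∧ Φ.Finite ∧
    ∀ (M N : Type) [L.Structure M] [L.Structure N] [Nonempty M] [Nonempty N] [Countable M]
      [Countable N], M ⊨ T → N ⊨ T → ∀ (a : Fin n → M) (b : Fin n → N),
      (∃ j k, ¬ ε.Realize Empty.elim ![a j, a k]) →
      (∀ j k, ε.Realize Empty.elim ![a j, a k] ↔ ε.Realize Empty.elim ![b j, b k]) →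
      (∀ Q ∈ Ψ, ∀ s : Fin Q.1 → Fin n,
        (θ Q.1 Q.2).Realize Empty.elim (a ∘ s) ↔ (θ Q.1 Q.2).Realize Empty.elim (b ∘ s)) →
      (∀ φ ∈ Φ, ∀ s : Fin n → Fin n, HoldsInClass ε φ (a ∘ s) ↔ HoldsInClass ε φ (b ∘ s)) →
      (Structure.RelMap R a ↔ Structure.RelMap R b)

end Pool.Agent.TH74.Gen
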