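import Pool.Agent.TH74.Gen.Count

set_option autoImplicit false
set_option linter.unusedSectionVars false

/-!
# Martin's conjecture for generalised sums
-/

namespace Pool.Agent.TH74.Gen

open FirstOrder FirstOrder.Language Pool.Agent.TH74.Martin

variable {L LQ : FirstOrder.Language.{0, 0}} [L.IsRelational] [LQ.IsRelational]
  [IsEmpty (L.Relations 0)]
  {T : L.Theory} {ε : L.BoundedFormula Empty 2} {le : LQ.Relations 2}
  {θ : ∀ n : ℕ, LQ.Relations n → L.BoundedFormula Empty n} {h : IsGenSum T ε le θ}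

/-- the indices are equal, or they can be exchanged -/
def Tw (N : SM h) (j k : N.I) : Prop := j = k ∨ (IsBad N j ∧ Eqv N j k)

theorem Tw.symm {N : SM h} {j k : N.I} (hjk : Tw N j k) : Tw N k j := by
  rcases hjk with h1 | ⟨h1, h2⟩
  · exact Or.inl h1.symm
  · exact Or.inr ⟨h2.bad h1, h2.symm⟩

theorem Tw.trans {N : SM h} {i j k : N.I} (hij : Tw N i j) (hjk : Tw N j k) : Tw N i k := by
  rcases hij with rfl | ⟨h1, h2⟩
  · exact hjk
  · rcases hjk with rfl | ⟨-, k2⟩
    · exact Or.inr ⟨h1, h2⟩
    · exact Or.inr ⟨h1, h2.trans h1 k2⟩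

open Classical in
theorem rel_tw {N : SM h} {j k : N.I} (hjk : Tw N j k) {n : ℕ} (Q : LQ.Relations n)
    (t : Fin n → N.I) :
    Structure.RelMap Q (Equiv.swap j k ∘ t) ↔ Structure.RelMap Q t := by
  rcases hjk with rfl | ⟨h1, h2, h3, h4⟩
  · rw [Equiv.swap_self]
    exact Iff.rfl
  · exact rel_swap h1 h2 h3 h4 Q t

open Classical in
theorem exists_aut (N : SM h) (π : Equiv.Perm N.I) (hπ : ∀ j, Tw N j (π j)) (F : Finset N.I) :
    ∃ τ : Equiv.Perm N.I, (∀ (n : ℕ) (Q : LQ.Relations n) (t : Fin n → N.I),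
      Structure.RelMap Q (τ ∘ t) ↔ Structure.RelMap Q t) ∧ (∀ j, Tw N j (τ j)) ∧
        ∀ j ∈ F, τ j = π j := by
  induction F using Finset.induction_on with
  | empty =>
    exact ⟨Equiv.refl _, fun n Q t => Iff.rfl, fun j => Or.inl rfl,
      fun j hj => absurd hj (Finset.notMem_empty j)⟩
  | insert a F ha ih =>
    obtain ⟨τ, h1, h2, h3⟩ := ih
    have hbc : Tw N (τ a) (π a) := (h2 a).symm.trans (hπ a)
    refine ⟨τ.trans (Equiv.swap (τ a) (π a)), fun n Q t => ?_, fun j => ?_, fun j hj => ?_⟩
    · rw [← h1 n Q t]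
      exact rel_tw hbc Q (τ ∘ t)
    · refine (h2 j).trans ?_
      rw [Equiv.trans_apply]
      by_cases e1 : τ j = τ a
      · rw [e1, Equiv.swap_apply_left]
        exact hbc
      · by_cases e2 : τ j = π a
        · rw [e2, Equiv.swap_apply_right]
          exact hbc.symm
        · rw [Equiv.swap_apply_of_ne_of_ne e1 e2]
          exact Or.inl rfl
    · rw [Equiv.trans_apply]
      rcases Finset.mem_insert.1 hj with rfl | hj
      · exact Equiv.swap_apply_left _ _
      · have hja : j ≠ a := fun e1 => ha (e1 ▸ hj)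
        rw [Equiv.swap_apply_of_ne_of_ne (fun e1 => hja (τ.injective e1)) (fun e1 => hja ?_)]
        · exact h3 j hj
        · rw [h3 j hj] at e1
          exact π.injective e1

/-- permutations of the indices which can be exchanged are automorphisms -/
theorem rel_perm (N : SM h) (π : Equiv.Perm N.I) (hπ : ∀ j, Tw N j (π j)) {n : ℕ}
    (Q : LQ.Relations n) (t : Fin n → N.I) :
    Structure.RelMap Q (π ∘ t) ↔ Structure.RelMap Q t := by
  classical
  obtain ⟨τ, h1, -, h3⟩ := exists_aut N π hπ (Finset.univ.image t)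
  rw [← h1 n Q t]
  have e1 : π ∘ t = τ ∘ t := funext fun l =>
    (h3 (t l) (Finset.mem_image_of_mem t (Finset.mem_univ l))).symm
  rw [e1]

open Classical in
/-- the invariant of an index of `M` -/
noncomputable def keyM {M N : SM h} (e : M.I → N.I) (i : M.I) :
    N.I ⊕ (Set N.I × Quotient (isoSetoid L)) :=
  if IsBad M i then Sum.inr ({j | Eqv N (e i) j}, ity (M.C i)) else Sum.inl (e i)

theorem keyM_pos {M N : SM h} (e : M.I → N.I) {i : M.I} (hi : IsBad M i) :
    keyM e i = Sum.inr ({j | Eqv N (e i) j}, ity (M.C i)) := if_pos hi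

theorem keyM_neg {M N : SM h} (e : M.I → N.I) {i : M.I} (hi : ¬ IsBad M i) :
    keyM e i = Sum.inl (e i) := if_neg hi

theorem eqv_set {N : SM h} {i j : N.I} (hi : IsBad N i) (hij : Eqv N i j) :
    {k | Eqv N i k} = {k | Eqv N j k} := by
  ext k
  exact ⟨fun h1 => hij.symm.trans (hij.bad hi) h1, fun h1 => hij.trans hi h1⟩

/-- **Martin's conjecture for generalised sums.** -/
theorem martin_SM (hL : Countable L.Symbols) (hfew : Few T) (M N : SM h)
    (hMN : ∀ φ : L1 T 0, φ.Sat (Fin.elim0 : Fin 0 → M.S) → φ.Sat (Fin.elim0 : Fin 0 → N.S))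
    (hm : MartinFor ((LI L LQ).completeTheory M.X))
    (hc : ∀ i, MartinFor (L.completeTheory (M.C i)))
    (hc' : ∀ i, MartinFor (L.completeTheory (N.C i))) : Nonempty (M.S ≃[L] N.S) := by
  obtain ⟨e⟩ := transfer_ix hL hfew M N hMN hm
  have hNM : ∀ φ : L1 T 0, φ.Sat (Fin.elim0 : Fin 0 → N.S) →
      φ.Sat (Fin.elim0 : Fin 0 → M.S) := by
    intro φ hφ
    by_contra hcon
    exact hMN (.not φ) hcon hφ
  have hbad : ∀ i, IsBad M i ↔ IsBad N (toLQ e i) := fun i => bad_congr (ct_toLQ e i)
  have hsymm : ∀ j : N.I, toLQ e (toLQ e.symm j) = j := fun j => e.apply_symm_apply j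
  obtain ⟨E, hE⟩ := fiber_equiv (keyM (M := M) (N := N) (toLQ e)) (keyM (M := N) (N := N) id) (by
    intro κ n
    cases n with
    | zero => exact ⟨fun _ => ⟨Fin.elim0, fun i => i.elim0, fun i => i.elim0⟩,
        fun _ => ⟨Fin.elim0, fun i => i.elim0, fun i => i.elim0⟩⟩
    | succ n =>
      rcases κ with j₀ | ⟨c, t⟩
      · constructor
        · rintro ⟨x, hx, hx'⟩
          have hxb : ∀ l, ¬ IsBad M (x l) := by
            intro l hl
            have h1 := hx' l
            rw [keyM_pos _ hl] at h1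
            exact absurd h1 (by simp)
          refine ⟨fun l => toLQ e (x l), (toLQ e).injective.comp hx, fun l => ?_⟩
          rw [keyM_neg _ (fun h1 => hxb l ((hbad _).2 h1)), ← hx' l, keyM_neg _ (hxb l)]
          rfl
        · rintro ⟨y, hy, hy'⟩
          have hyb : ∀ l, ¬ IsBad N (y l) := by
            intro l hl
            have h1 := hy' l
            rw [keyM_pos _ hl] at h1
            exact absurd h1 (by simp)
          have hyb' : ∀ l, ¬ IsBad M (toLQ e.symm (y l)) := by
            intro l hl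
            have h1 := (hbad _).1 hl
            rw [hsymm] at h1
            exact hyb l h1
          refine ⟨fun l => toLQ e.symm (y l), (toLQ e.symm).injective.comp hy, fun l => ?_⟩
          rw [keyM_neg _ (hyb' l), hsymm, ← hy' l, keyM_neg _ (hyb l)]
          rfl
      · constructor
        · rintro ⟨x, hx, hx'⟩
          have hxb : ∀ l, IsBad M (x l) := by
            intro l
            by_contra hl
            have h1 := hx' l
            rw [keyM_neg _ hl] at h1
            exact absurd h1 (by simp)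
          have hx1 : ∀ l, {j | Eqv N (toLQ e (x l)) j} = c ∧ ity (L := L) (M.C (x l)) = t := by
            intro l
            have h1 := hx' l
            rw [keyM_pos _ (hxb l)] at h1
            exact Prod.mk_inj.1 (Sum.inr_injective h1)
          have hx2 : ∀ l, Eqv M (x 0) (x l) := by
            intro l
            rw [Eqv.map e]
            have h1 : toLQ e (x l) ∈ {j | Eqv N (toLQ e (x l)) j} :=
              Eqv.refl ((hbad _).1 (hxb l))
            rw [(hx1 l).1, ← (hx1 0).1] at h1
            exact h1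
          obtain ⟨y, hy1, hy2, hy3⟩ := transfer_count hfew M N hMN e (hxb 0) (hc (x 0)) x hx
            hx2 (fun l => (hx1 l).2.trans (hx1 0).2.symm)
          refine ⟨y, hy1, fun l => ?_⟩
          rw [keyM_pos _ ((hy2 l).bad ((hbad _).1 (hxb 0)))]
          refine congrArg Sum.inr (Prod.ext ?_ ((hy3 l).trans (hx1 0).2))
          exact (eqv_set ((hbad _).1 (hxb 0)) (hy2 l)).symm.trans (hx1 0).1
        · rintro ⟨x, hx, hx'⟩
          have hxb : ∀ l, IsBad N (x l) := by
            intro l
            by_contra hl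
            have h1 := hx' l
            rw [keyM_neg _ hl] at h1
            exact absurd h1 (by simp)
          have hx1 : ∀ l, {j | Eqv N (x l) j} = c ∧ ity (L := L) (N.C (x l)) = t := by
            intro l
            have h1 := hx' l
            rw [keyM_pos _ (hxb l)] at h1
            exact Prod.mk_inj.1 (Sum.inr_injective h1)
          have hx2 : ∀ l, Eqv N (x 0) (x l) := by
            intro l
            have h1 : x l ∈ {j | Eqv N (x l) j} := Eqv.refl (hxb l)
            rw [(hx1 l).1, ← (hx1 0).1] at h1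
            exact h1
          obtain ⟨y, hy1, hy2, hy3⟩ := transfer_count hfew N M hNM e.symm (hxb 0) (hc' (x 0)) x
            hx hx2 (fun l => (hx1 l).2.trans (hx1 0).2.symm)
          have hy4 : ∀ l, Eqv N (x 0) (toLQ e (y l)) := by
            intro l
            have h1 := (Eqv.map e).1 (hy2 l)
            rw [hsymm] at h1
            exact h1
          refine ⟨y, hy1, fun l => ?_⟩
          rw [keyM_pos _ ((hbad _).2 ((hy4 l).bad (hxb 0)))]
          refine congrArg Sum.inr (Prod.ext ?_ ((hy3 l).trans (hx1 0).2))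
          exact (eqv_set (hxb 0) (hy4 l)).symm.trans (hx1 0).1)
  have hE1 : ∀ i, ¬ IsBad M i → E i = toLQ e i := by
    intro i hi
    have h1 := hE i
    rw [keyM_neg _ hi] at h1
    by_cases h2 : IsBad N (E i)
    · rw [keyM_pos _ h2] at h1
      exact absurd h1 (by simp)
    · rw [keyM_neg _ h2] at h1
      exact Sum.inl_injective h1
  have hE2 : ∀ i (_ : IsBad M i), Eqv N (toLQ e i) (E i) ∧
      ity (L := L) (N.C (E i)) = ity (L := L) (M.C i) := by
    intro i hi
    have h1 := hE i
    rw [keyM_pos _ hi] at h1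
    by_cases h2 : IsBad N (E i)
    · rw [keyM_pos _ h2] at h1
      obtain ⟨h3, h4⟩ := Prod.mk_inj.1 (Sum.inr_injective h1)
      have h5 : E i ∈ {j | Eqv N (E i) j} := Eqv.refl h2
      change {j | Eqv N (E i) j} = _ at h3
      rw [h3] at h5
      exact ⟨h5, h4⟩
    · rw [keyM_neg _ h2] at h1
      exact absurd h1 (by simp)
  have hTw : ∀ i, Tw N (toLQ e i) (E i) := by
    intro i
    by_cases hi : IsBad M i
    · exact Or.inr ⟨(hbad i).1 hi, (hE2 i hi).1⟩
    · rw [hE1 i hi]
      exact Or.inl rfl
  let E' : M.I ≃[LQ] N.I :=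
    { toEquiv := E
      map_fun' := fun f => isEmptyElim f
      map_rel' := fun {n} Q t => by
        have h1 := rel_perm N ((toLQ e).toEquiv.symm.trans E) (fun j => by
          obtain ⟨i, rfl⟩ := (toLQ e).surjective j
          have e1 : ((toLQ e).toEquiv.symm.trans E) (toLQ e i) = E i := by
            rw [Equiv.trans_apply]
            exact congrArg E ((toLQ e).toEquiv.symm_apply_apply i)
          rw [e1]
          exact hTw i) Q (toLQ e ∘ t)
        have e2 : ((toLQ e).toEquiv.symm.trans E) ∘ (toLQ e ∘ t) = E ∘ t := by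
          funext l
          exact congrArg E ((toLQ e).toEquiv.symm_apply_apply (t l))
        rw [e2] at h1
        exact h1.trans ((toLQ e).map_rel Q t) }
  have hiso : ∀ i : M.I, Nonempty (M.C i ≃[L] N.C (E' i)) := by
    intro i
    by_cases hi : IsBad M i
    · exact ity_eq.1 (hE2 i hi).2.symm
    · have h1 : E' i = toLQ e i := hE1 i hi
      rw [h1]
      unfold IsBad at hi
      rw [not_not] at hi
      exact hi _ _ (self_model _) (th_iff.2 (same_of_ct (ct_toLQ e i)))
  exact sum_iso E' fun i => (hiso i).some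

/-- the sum of the classes of a model -/
def SM.of (h : IsGenSum T ε le θ) (M : Type) [L.Structure M] [Nonempty M] [Countable M]
    (hM : M ⊨ T) : SM h where
  I := Classes ε θ M
  C := fam ε θ M
  sI := inferInstance
  sC := fun i => inferInstance
  nI := inferInstance
  cI := inferInstance
  nC := (exists_sum h M hM).2.1
  cC := fun i => inferInstance
  dfs := (exists_sum h M hM).1
  model := by
    obtain ⟨e⟩ := (exists_sum h M hM).2.2
    exact StrongHomClass.theory_model e

/-- **Martin's conjecture for generalised sums.** -/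
theorem martin_genSum (hL : Countable L.Symbols) (h : IsGenSum T ε le θ)
    (hidx : ∀ (M : Type) [L.Structure M] [Nonempty M] [Countable M], M ⊨ T →
      MartinFor (indexTheory ε θ M))
    (hcls : ∀ (M : Type) [L.Structure M] [Nonempty M] [Countable M], M ⊨ T → ∀ a : M,
      MartinFor (clsTheory ε a)) : MartinFor T := by
  intro hfew M N _ _ _ _ _ _ hM hMN
  have hN : N ⊨ T := by
    refine ⟨fun {σ} hσ => ?_⟩
    rw [← tr_sentence]
    exact hMN (.fo σ) ((tr_sentence σ).2 (hM.realize_of_mem σ hσ))
  obtain ⟨-, -, ⟨e₁⟩⟩ := exists_sum h M hM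
  obtain ⟨-, -, ⟨e₂⟩⟩ := exists_sum h N hN
  have hsat : ∀ {X Y : Type} [L.Structure X] [L.Structure Y] (e : X ≃[L] Y) (φ : L1 T 0),
      φ.Sat (Fin.elim0 : Fin 0 → X) ↔ φ.Sat (Fin.elim0 : Fin 0 → Y) := by
    intro X Y _ _ e φ
    have h4 := L1.sat_iso e φ Fin.elim0
    have e1 : (e ∘ Fin.elim0 : Fin 0 → Y) = Fin.elim0 := Subsingleton.elim _ _
    rw [e1] at h4
    exact h4.symm
  obtain ⟨e₃⟩ := martin_SM hL hfew (SM.of h M hM) (SM.of h N hN)
    (fun φ hφ => (hsat e₂ φ).1 (hMN φ ((hsat e₁ φ).2 hφ)))
    (by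
      have h1 : indexTheory ε θ M = (LI L LQ).completeTheory (SM.of h M hM).X :=
        StrongHomClass.elementarilyEquivalent (ixEquiv (ε := ε) (θ := θ) M)
      rw [← h1]
      exact hidx M hM)
    (by
      rintro ⟨s, a, rfl⟩
      exact hcls M hM a)
    (by
      rintro ⟨s, a, rfl⟩
      exact hcls N hN a)
  exact ⟨e₂.symm.comp (e₃.comp e₁)⟩

end Pool.Agent.TH74.Gen
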