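import Pool.Agent.TH74.Gen.Trans

set_option autoImplicit false
set_option linter.unusedSectionVars false

/-!
# Translation of the formulas of `L₁(T_I)` about the index structure into formulas of `L₁(T)`
-/

namespace Pool.Agent.TH74.Gen

open FirstOrder FirstOrder.Language Pool.Agent.TH74.Martin

variable {L LQ : FirstOrder.Language.{0, 0}}

/-! ### Formulas -/

theorem sn_self {X : Type} {m : ℕ} (z : Fin (m + 1) → X) :
    sn (fun l => z l.castSucc) (z (Fin.last m)) = z := by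
  funext j
  refine Fin.lastCases ?_ (fun j => ?_) j
  · rw [sn_last]
  · rw [sn_castSucc]

theorem exists_exN {T : L.Theory} {n : ℕ} (k : ℕ) : ∀ φ : L1 T (n + k), ∃ ψ : L1 T n,
    ∀ (M : Type) [L.Structure M] (a : Fin n → M), ψ.Sat a ↔
      ∃ z : Fin (n + k) → M, (∀ l, z (Fin.castAdd k l) = a l) ∧ φ.Sat z := by
  induction k with
  | zero =>
    intro φ
    refine ⟨φ, fun M _ a => ⟨fun h => ⟨a, fun l => rfl, h⟩, ?_⟩⟩
    rintro ⟨z, h1, h2⟩
    have e1 : z = a := funext h1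
    rwa [← e1]
  | succ k ih =>
    intro φ
    obtain ⟨ψ, hψ⟩ := ih (.not (.all (.not φ)))
    refine ⟨ψ, fun M _ a => (hψ M a).trans ?_⟩
    have e1 : ∀ z : Fin (n + k) → M, (L1.not (.all (.not φ))).Sat z ↔ ∃ x, φ.Sat (sn z x) := by
      intro z
      change ¬ (∀ x, ¬ φ.Sat (sn z x)) ↔ _
      rw [not_forall_not]
    simp only [e1]
    constructor
    · rintro ⟨z, h1, x, h2⟩
      refine ⟨sn z x, fun l => ?_, h2⟩
      rw [snoc_castAdd]
      exact h1 l
    · rintro ⟨z, h1, h2⟩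
      exact ⟨fun l => z l.castSucc, h1, z (Fin.last (n + k)),
        Eq.mpr (congrArg (fun y => φ.Sat y) (sn_self (m := n + k) z)) h2⟩

theorem exists_disjL {T : L.Theory} {n : ℕ} {α : Type*} {s : Set α} (hs : s.Finite)
    (Q : α → ∀ (M : Type) [L.Structure M], (Fin n → M) → Prop)
    (hQ : ∀ a ∈ s, ∃ ψ : L1 T n, ∀ (M : Type) [L.Structure M] (x : Fin n → M),
      ψ.Sat x ↔ Q a M x) :
    ∃ ψ : L1 T n, ∀ (M : Type) [L.Structure M] (x : Fin n → M), ψ.Sat x ↔ ∃ a ∈ s, Q a M x := by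
  induction s, hs using Set.Finite.induction_on with
  | empty =>
    refine ⟨.fo .falsum, fun M _ x => iff_of_false id ?_⟩
    rintro ⟨a, ha, -⟩
    exact absurd ha (Set.notMem_empty a)
  | @insert t s _ _ ih =>
    obtain ⟨ψ₁, h₁⟩ := hQ t (Set.mem_insert t s)
    obtain ⟨ψ₂, h₂⟩ := ih fun a ha => hQ a (Set.mem_insert_of_mem t ha)
    refine ⟨.not (.and (.not ψ₁) (.not ψ₂)), fun M _ x => ?_⟩
    change ¬ (¬ ψ₁.Sat x ∧ ¬ ψ₂.Sat x) ↔ _
    rw [← not_or, not_not, h₁, h₂]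
    constructor
    · rintro (h | ⟨a, ha, h⟩)
      · exact ⟨t, Set.mem_insert t s, h⟩
      · exact ⟨a, Set.mem_insert_of_mem t ha, h⟩
    · rintro ⟨a, ha | ha, h⟩
      · subst ha
        exact Or.inl h
      · exact Or.inr ⟨a, ha, h⟩

/-- points whose types depend only on the isomorphism type -/
theorem exists_point (L : FirstOrder.Language.{0, 0}) [L.IsRelational] :
    ∃ P : Quotient (isoSetoid L) → Set (L.BoundedFormula Empty 1),
      ∀ (X : Type) [L.Structure X] [Nonempty X], ∃ a : X, ∀ φ : L.BoundedFormula Empty 1,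
        φ ∈ P (ity X) ↔ Tr φ fun _ : Fin 1 => a := by
  have h1 : ∀ t : Quotient (isoSetoid L), ∃ P : Set (L.BoundedFormula Empty 1),
      ∀ (X : Type) [L.Structure X] [Nonempty X], ity X = t → ∃ a : X,
        ∀ φ : L.BoundedFormula Empty 1, φ ∈ P ↔ Tr φ fun _ : Fin 1 => a := by
    intro t
    by_cases ht : ∃ (Y : Type) (_ : L.Structure Y) (_ : Nonempty Y), ity Y = t
    · obtain ⟨Y, i1, ⟨b⟩, rfl⟩ := ht
      refine ⟨{φ | Tr φ fun _ : Fin 1 => b}, fun X _ _ hX => ?_⟩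
      obtain ⟨f⟩ := ity_eq.1 hX.symm
      refine ⟨f b, fun φ => ?_⟩
      exact (tr_iso f φ fun _ => b).symm
    · exact ⟨∅, fun X _ _ hX => absurd ⟨X, inferInstance, inferInstance, hX⟩ ht⟩
  choose P hP using h1
  exact ⟨P, fun X _ _ => hP _ X rfl⟩

variable [L.IsRelational] [LQ.IsRelational] [IsEmpty (L.Relations 0)]
  {T : L.Theory} {ε : L.BoundedFormula Empty 2} {le : LQ.Relations 2}
  {θ : ∀ n : ℕ, LQ.Relations n → L.BoundedFormula Empty n} {h : IsGenSum T ε le θ}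

/-- the tuple of points -/
def ptt {M : SM h} (c : ∀ i : M.I, M.C i) {k : ℕ} (t : Fin k → M.X) : Fin k → M.S :=
  fun j => inn (crossOf h) (un (t j)) (c (un (t j)))

/-- The type of the tuple of points is determined. -/
theorem eeq_ptt {P : Quotient (isoSetoid L) → Set (L.BoundedFormula Empty 1)} {M N : SM h}
    {c : ∀ i : M.I, M.C i} {d : ∀ i : N.I, N.C i}
    (hc : ∀ i, ∀ φ : L.BoundedFormula Empty 1, φ ∈ P (ity (M.C i)) ↔ Tr φ fun _ : Fin 1 => c i)
    (hd : ∀ i, ∀ φ : L.BoundedFormula Empty 1, φ ∈ P (ity (N.C i)) ↔ Tr φ fun _ : Fin 1 => d i)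
    {k : ℕ} {t : Fin k → M.X} {u : Fin k → N.X} (htu : EEq (LI L LQ) t u)
    (hty : ∀ j, ity (L := L) (M.C (un (t j))) = ity (L := L) (N.C (un (u j)))) :
    EEq L (ptt c t) (ptt d u) := by
  refine eeq_sum (finDep_crossOf h) htu fun m s i v i' w hm h4 h5 => ?_
  have e1 : ∀ l, un (t (s l)) = i := fun l => congrArg Sigma.fst (h4 l)
  have e2 : ∀ l, un (u (s l)) = i' := fun l => congrArg Sigma.fst (h5 l)
  have e3 : ∀ (l) (j : M.I), un (t (s l)) = j →
      ptt c t (s l) = inn (crossOf h) j (c j) := by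
    rintro l j rfl
    rfl
  have e4 : ∀ (l) (j : N.I), un (u (s l)) = j →
      ptt d u (s l) = inn (crossOf h) j (d j) := by
    rintro l j rfl
    rfl
  have e5 : v = fun _ => c i := funext fun l =>
    (inn_inj ((e3 l i (e1 l)).symm.trans (h4 l))).symm
  have e6 : w = fun _ => d i' := funext fun l =>
    (inn_inj ((e4 l i' (e2 l)).symm.trans (h5 l))).symm
  rw [e5, e6]
  refine eeq_const (fun φ => ?_) m
  rw [← hc, ← hd, ← e1 ⟨0, hm⟩, ← e2 ⟨0, hm⟩, hty]

/-- Only finitely many types occur. -/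
theorem finite_ptt {P : Quotient (isoSetoid L) → Set (L.BoundedFormula Empty 1)}
    (hfew : Few T) (W : Bool → SM h) {c : ∀ b, ∀ i : (W b).I, (W b).C i}
    (hc : ∀ b i, ∀ φ : L.BoundedFormula Empty 1, φ ∈ P (ity ((W b).C i)) ↔
      Tr φ fun _ : Fin 1 => c b i) {TI : (LI L LQ).Theory} {k : ℕ}
    {r : Set ((LI L LQ).BoundedFormula Empty k)} (hr : IsCompleteType TI r) :
    {p : Set (L.BoundedFormula Empty k) | ∃ b, ∃ t : Fin k → (W b).X, (∀ φ ∈ r, Tr φ t) ∧
      p = {φ | Tr φ (ptt (c b) t)}}.Finite := by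
  have heq : ∀ (b b' : Bool) (t : Fin k → (W b).X) (u : Fin k → (W b').X),
      (∀ φ ∈ r, Tr φ t) → (∀ φ ∈ r, Tr φ u) → EEq (LI L LQ) t u := by
    intro b b' t u h1 h2
    obtain ⟨Y, j1, j2, j3, a, hY, rfl⟩ := hr
    exact fun φ => (eeq_of_tp h1 φ).symm.trans (eeq_of_tp h2 φ)
  by_cases hne : ∃ b, ∃ t : Fin k → (W b).X, ∀ φ ∈ r, Tr φ t
  · obtain ⟨b₀, t₀, h₀⟩ := hne
    have hfin : {f : Fin k → Quotient (isoSetoid L) | ∀ j, f j ∈ {s | ∃ b i,
        (W b).C i ⊨ L.completeTheory ((W b₀).C (un (t₀ j))) ∧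
          ity (L := L) ((W b).C i) = s}}.Finite := by
      refine Set.Finite.pi' fun j => ?_
      have h1 := Set.finite_iUnion fun b => finite_ity hfew (W b) ((W b₀).C (un (t₀ j)))
      refine h1.subset ?_
      rintro s ⟨b, i, h2, h3⟩
      exact Set.mem_iUnion.2 ⟨b, i, h2, h3⟩
    refine (hfin.image fun f => {φ : L.BoundedFormula Empty k | ∃ b, ∃ t : Fin k → (W b).X,
      (∀ φ ∈ r, Tr φ t) ∧ (∀ j, ity (L := L) ((W b).C (un (t j))) = f j) ∧
        Tr φ (ptt (c b) t)}).subset ?_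
    rintro p ⟨b, t, ht, rfl⟩
    refine ⟨fun j => ity (L := L) ((W b).C (un (t j))), fun j => ⟨b, un (t j), ?_, rfl⟩, ?_⟩
    · exact th_iff.2 fun σ => same_of_eeq (heq b₀ b t₀ t h₀ ht) j σ
    · ext φ
      constructor
      · rintro ⟨b', t', h1, h2, h3⟩
        exact (eeq_ptt (hc b') (hc b) (heq b' b t' t h1 ht) h2 φ).1 h3
      · intro h1
        exact ⟨b, t, ht, fun j => rfl, h1⟩
  · convert Set.finite_empty
    refine Set.eq_empty_of_forall_notMem ?_
    rintro p ⟨b, t, ht, -⟩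
    exact hne ⟨b, t, ht⟩

/-- the formula `ε` at two variables -/
theorem exists_pairs {n k : ℕ} (ε : L.BoundedFormula Empty 2) (v : Fin k → Fin n) :
    ∃ ψ : L1 T (n + k), ∀ (M : Type) [L.Structure M] (z : Fin (n + k) → M),
      ψ.Sat z ↔ ∀ j, Tr ε ![z (Fin.castAdd k (v j)), z (Fin.natAdd n j)] := by
  obtain ⟨ψ, hψ⟩ := exists_conjL (T := T) k
    fun j => .fo (sub ε ![Fin.castAdd k (v j), Fin.natAdd n j])
  refine ⟨ψ, fun M _ z => (hψ M z).trans (forall_congr' fun j => ?_)⟩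
  have h1 := tr_sub ε ![Fin.castAdd k (v j), Fin.natAdd n j] z
  rw [comp_pair] at h1
  exact h1

/-- **Formulas of `L₁` about the index structure are translated.** -/
theorem exists_trI (hfew : Few T) (W : Bool → SM h) {TI : (LI L LQ).Theory} {n : ℕ}
    (φ : L1 TI n) : ∃ ψ : L1 T n, ∀ b (xs : Fin n → (W b).S), ψ.Sat xs ↔ φ.Sat (fs ∘ xs) := by
  induction φ with
  | fo φ =>
    obtain ⟨ψ, hψ⟩ := exists_trF (crossOf h) ε θ φ
    exact ⟨.fo ψ, fun b xs => hψ _ _ (W b).dfs xs⟩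
  | @conj n k r hr v =>
    obtain ⟨P, hP⟩ := exists_point L
    choose c hc using fun b (i : (W b).I) => hP ((W b).C i)
    have hfin := finite_ptt hfew W hc hr
    obtain ⟨ψ₀, hψ₀⟩ := exists_pairs (T := T) ε v
    obtain ⟨ψ, hψ⟩ := exists_disjL (T := T) hfin
      (fun p M _ x => ∃ z : Fin (n + k) → M, (∀ l, z (Fin.castAdd k l) = x l) ∧
        (∀ j, Tr ε ![z (Fin.castAdd k (v j)), z (Fin.natAdd n j)]) ∧
          ∀ φ ∈ p, Tr φ fun j => z (Fin.natAdd n j)) (by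
      rintro p ⟨b, t, ht, hp⟩
      have hpc : IsCompleteType T p :=
        ⟨(W b).S, inferInstance, inferInstance, inferInstance, _, (W b).model, hp⟩
      obtain ⟨ψ', hψ'⟩ := exists_exN k (.and ψ₀ (.conj p hpc fun j => Fin.natAdd n j))
      refine ⟨ψ', fun M _ x => (hψ' M x).trans (exists_congr fun z => and_congr Iff.rfl ?_)⟩
      exact and_congr (hψ₀ M z) Iff.rfl)
    refine ⟨ψ, fun b xs => (hψ _ xs).trans ?_⟩
    change _ ↔ ∀ φ ∈ r, Tr φ fun j => fs (xs (v j))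
    constructor
    · rintro ⟨p, ⟨b', t, ht, rfl⟩, z, h1, h2, h3⟩ φ hφ
      have h4 : EEq L (ptt (c b') t) fun j => z (Fin.natAdd n j) := eeq_of_tp h3
      have h5 := EEq.fs (W b').dfs (W b).dfs h4
      have e1 : (fs ∘ fun j => z (Fin.natAdd n j)) = fun j => fs (xs (v j)) := by
        funext j
        have h6 := ((W b).dfs.eq _ _).1 (h2 j)
        rw [h1] at h6
        exact h6.symm
      rw [e1] at h5
      exact (h5 φ).1 (ht φ hφ)
    · intro h1
      obtain ⟨z, hz1, hz2⟩ : ∃ z : Fin (n + k) → (W b).S, (∀ l, z (Fin.castAdd k l) = xs l) ∧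
          ∀ j, z (Fin.natAdd n j) = ptt (c b) (fun j => fs (xs (v j))) j :=
        ⟨Fin.addCases xs (ptt (c b) fun j => fs (xs (v j))), fun l => Fin.addCases_left l,
          fun j => Fin.addCases_right j⟩
      refine ⟨_, ⟨b, fun j => fs (xs (v j)), h1, rfl⟩, z, hz1, fun j => ?_, ?_⟩
      · rw [hz1, hz2, (W b).dfs.eq]
        rfl
      · intro φ hφ
        have e1 : (fun j => z (Fin.natAdd n j)) = ptt (c b) fun j => fs (xs (v j)) := funext hz2
        rw [e1]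
        exact hφ
  | not φ ih =>
    obtain ⟨ψ, hψ⟩ := ih
    exact ⟨.not ψ, fun b xs => not_congr (hψ b xs)⟩
  | and φ₁ φ₂ ih1 ih2 =>
    obtain ⟨ψ₁, h1⟩ := ih1
    obtain ⟨ψ₂, h2⟩ := ih2
    exact ⟨.and ψ₁ ψ₂, fun b xs => and_congr (h1 b xs) (h2 b xs)⟩
  | @all n φ ih =>
    obtain ⟨ψ, hψ⟩ := ih
    refine ⟨.all ψ, fun b xs => ?_⟩
    change (∀ x : (W b).S, ψ.Sat (sn xs x)) ↔ ∀ i : (W b).X, φ.Sat (sn (fs ∘ xs) i)
    constructor
    · intro h i
      have h2 := (hψ b _).1 (h (inn _ (un i) (Classical.arbitrary _)))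
      rw [comp_sn] at h2
      exact h2
    · intro h x
      rw [hψ b, comp_sn]
      exact h _

end Pool.Agent.TH74.Gen
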