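import Pool.Agent.TH74.Gen.Decomp
import Mathlib.ModelTheory.Skolem

set_option autoImplicit false
set_option linter.unusedSectionVars false

/-!
# Sums over given index structures
-/

namespace Pool.Agent.TH74.Gen

open FirstOrder FirstOrder.Language Pool.Agent.TH74.Martin Cardinal

variable {L LQ : FirstOrder.Language.{0, 0}}

/-- a satisfiable theory in a countable language has a countable model -/
theorem exists_countable_model (hL : Countable L.Symbols) {S : L.Theory}
    (hS : S.IsSatisfiable) : ∃ (D : Type) (_ : L.Structure D), Nonempty D ∧ Countable D ∧ D ⊨ S := by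
  obtain ⟨M⟩ := hS
  by_cases hM : Countable M
  · exact ⟨M, inferInstance, inferInstance, hM, inferInstance⟩
  · have h4 : (ℵ₀ : Cardinal.{0}) ≤ #M := by
      by_contra h
      rw [not_le] at h
      exact hM (Cardinal.mk_le_aleph0_iff.1 h.le)
    obtain ⟨N, -, hN⟩ := exists_elementarySubstructure_card_eq L (M := M) ∅ (ℵ₀ : Cardinal.{0})
      le_rfl (by simp) (by
        have h5 : L.card ≤ ℵ₀ := Cardinal.mk_le_aleph0_iff.2 hL
        simpa using h5) (by simpa using h4)
    refine ⟨N, inferInstance, inferInstance, ?_, inferInstance⟩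
    rw [← Cardinal.mk_le_aleph0_iff]
    simp only [Cardinal.lift_uzero] at hN
    rw [hN]

variable [L.IsRelational] [LQ.IsRelational] {I : Type} {C : I → Type} [LQ.Structure I]
  [∀ i, L.Structure (C i)] [∀ i, Nonempty (C i)]

/-- an element of an index structure is matched with respect to finitely many predicates -/
theorem exists_index {K : Type} [(LI L LQ).Structure K]
    (hK : EEq (LI L LQ) (Fin.elim0 : Fin 0 → Ix L LQ C) (Fin.elim0 : Fin 0 → K))
    (H : Set (L.BoundedFormula Empty 0)) (hH : H.Finite) (k : K) :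
    ∃ i : I, ∀ σ ∈ H, Structure.RelMap (ps LQ σ) (fun _ => k) ↔
      Tr σ (Fin.elim0 : Fin 0 → C i) := by
  have h1 := hK.bf (hH.image fun σ => (⟨1, ps LQ σ⟩ : Σ n : ℕ, (LI L LQ).Relations n)) 1
  obtain ⟨i, hi⟩ := h1.2.2 k
  refine ⟨un i, fun σ hσ => ?_⟩
  have h2 := hi.2 ⟨1, ps LQ σ⟩ ⟨σ, hσ, rfl⟩ (fun _ => Fin.last 0)
  have e1 : ∀ {X : Type} (z : X), sn Fin.elim0 z ∘ (fun _ : Fin 1 => Fin.last 0) =
      fun _ => z := by
    intro X z
    funext t
    rw [Function.comp_apply, sn_last]
  rw [e1, e1] at h2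
  exact h2.symm

/-- **Countable index structures come from sums.** -/
theorem exists_family (hL : Countable L.Symbols) {K : Type} [(LI L LQ).Structure K]
    (hK : EEq (LI L LQ) (Fin.elim0 : Fin 0 → Ix L LQ C) (Fin.elim0 : Fin 0 → K)) :
    ∃ (D : K → Type) (_ : ∀ k, L.Structure (D k)), (∀ k, Nonempty (D k)) ∧
      (∀ k, Countable (D k)) ∧ ∀ k (σ : L.BoundedFormula Empty 0),
        Structure.RelMap (ps LQ σ) (fun _ => k) ↔ Tr σ (Fin.elim0 : Fin 0 → D k) := by
  have hneg : ∀ (k : K) (σ : L.BoundedFormula Empty 0),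
      Structure.RelMap (ps LQ σ.not) (fun _ => k) ↔ ¬ Structure.RelMap (ps LQ σ) fun _ => k := by
    intro k σ
    obtain ⟨i, hi⟩ := exists_index hK {σ, σ.not} (Set.toFinite _) k
    rw [hi _ (Or.inr rfl), hi _ (Or.inl rfl)]
    exact Iff.rfl
  have hex : ∀ k : K, ∃ (D : Type) (_ : L.Structure D), Nonempty D ∧ Countable D ∧
      D ⊨ ({σ | Structure.RelMap (ps LQ σ) fun _ => k} : L.Theory) := by
    intro k
    refine exists_countable_model hL ?_
    rw [Theory.isSatisfiable_iff_isFinitelySatisfiable]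
    intro T₀ hT₀
    obtain ⟨i, hi⟩ := exists_index hK (T₀ : Set (L.BoundedFormula Empty 0))
      (Finset.finite_toSet T₀) k
    have : C i ⊨ (T₀ : L.Theory) := by
      refine ⟨fun {σ} hσ => ?_⟩
      rw [← tr_sentence]
      exact (hi σ hσ).1 (hT₀ hσ)
    exact Theory.Model.isSatisfiable (C i)
  choose D iD h1 h2 h3 using hex
  refine ⟨D, iD, h1, h2, fun k σ => ⟨fun h => ?_, fun h => ?_⟩⟩
  · exact (tr_sentence σ).2 ((h3 k).realize_of_mem σ h)
  · by_contra h4
    have h5 := (h3 k).realize_of_mem σ.not ((hneg k σ).2 h4)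
    rw [← tr_sentence] at h5
    exact h5 h

/-- the reduct to `LQ` of an `LI`-structure -/
def redLQ (K : Type) [(LI L LQ).Structure K] : LQ.Structure K where
  funMap := fun f => isEmptyElim f
  RelMap := fun {_} Q t => Structure.RelMap (qs (L := L) Q) t

/-- the identity map, from a structure to the index structure of a coherent family -/
theorem nonempty_ixEquiv {K : Type} [iK : (LI L LQ).Structure K] (D : K → Type)
    [∀ k, L.Structure (D k)]
    (hD : ∀ k (σ : L.BoundedFormula Empty 0),
      Structure.RelMap (ps LQ σ) (fun _ => k) ↔ Tr σ (Fin.elim0 : Fin 0 → D k)) :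
    let _ : LQ.Structure K := redLQ (L := L) K
    Nonempty (K ≃[LI L LQ] Ix L LQ D) := by
  let _ : LQ.Structure K := redLQ (L := L) K
  refine ⟨⟨Equiv.refl K, fun f => Empty.elim f, fun {n} R t => ?_⟩⟩
  change IxRel L LQ n at R
  cases R with
  | q Q => exact Iff.rfl
  | p σ =>
    have h1 := hD (t 0) σ
    have e1 : (fun _ : Fin 1 => t 0) = t := by
      funext l
      obtain rfl : l = 0 := Subsingleton.elim _ _
      rfl
    rw [e1] at h1
    exact h1.symm

theorem eeq_elim0_of_iso {L' : FirstOrder.Language.{0, 0}} [L'.IsRelational] {X Y : Type}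
    [L'.Structure X] [L'.Structure Y] (f : X ≃[L'] Y) :
    EEq L' (Fin.elim0 : Fin 0 → X) (Fin.elim0 : Fin 0 → Y) := by
  intro φ
  have h1 := tr_iso f φ Fin.elim0
  have e1 : (f ∘ Fin.elim0 : Fin 0 → Y) = Fin.elim0 := Subsingleton.elim _ _
  rw [e1] at h1
  exact h1.symm

end Pool.Agent.TH74.Gen
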