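import Pool.Agent.TH74.Gen.Sum

set_option autoImplicit false
set_option linter.unusedSectionVars false

/-!
# Relativised formulas, and the theory of the index structure
-/

namespace Pool.Agent.TH74.Gen

open FirstOrder FirstOrder.Language Pool.Agent.TH74.Martin

variable {L LQ : FirstOrder.Language.{0, 0}} [L.IsRelational] {δ : Cross L LQ} {I J : Type}
  {C : I → Type} {D : J → Type} [LQ.Structure I] [LQ.Structure J] [∀ i, L.Structure (C i)]
  [∀ j, L.Structure (D j)] {ε : L.BoundedFormula Empty 2}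
  {θ : ∀ n : ℕ, LQ.Relations n → L.BoundedFormula Empty n}

/-- the formulas define the partition into summands and the index structure -/
structure Dfs (δ : Cross L LQ) (ε : L.BoundedFormula Empty 2)
    (θ : ∀ n : ℕ, LQ.Relations n → L.BoundedFormula Empty n) {I : Type} (C : I → Type)
    [LQ.Structure I] [∀ i, L.Structure (C i)] : Prop where
  eq : ∀ x y : Sm δ C, Tr ε ![x, y] ↔ x.1 = y.1
  rel : ∀ (n : ℕ) (Q : LQ.Relations n) (x : Fin n → Sm δ C),
    Tr (θ n Q) x ↔ Structure.RelMap Q fun l => (x l).1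

theorem dfs_of_eeq [IsEmpty (L.Relations 0)]
    {Ψ : ∀ n : ℕ, L.Relations n → Set (Σ m : ℕ, LQ.Relations m)}
    {Φ : ∀ n : ℕ, L.Relations n → Set (L.BoundedFormula Empty n)}
    (hU : FinDep δ Ψ Φ) (hCD : EEq (LI L LQ) (Fin.elim0 : Fin 0 → Ix L LQ C)
      (Fin.elim0 : Fin 0 → Ix L LQ D)) (hC : Dfs δ ε θ C) : Dfs δ ε θ D := by
  refine ⟨fun x y => ?_, fun n Q y => ?_⟩
  · obtain ⟨xs, h1, h2⟩ := exists_tuple (C := C) (D := D) hU hCD ε ∅ Set.finite_empty ![x, y]
    have e1 : xs = ![xs 0, xs 1] := by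
      funext j
      fin_cases j
      · rfl
      · rfl
    rw [e1] at h1
    rw [← h1, hC.eq]
    exact h2.1 0 1
  · obtain ⟨xs, h1, h2⟩ := exists_tuple (C := C) (D := D) hU hCD (θ n Q)
      {(⟨n, qs Q⟩ : Σ n : ℕ, (LI L LQ).Relations n)} (Set.finite_singleton _) y
    rw [← h1, hC.rel]
    exact h2.2 ⟨n, qs Q⟩ rfl id

/-- being in the class of the variable `x` -/
theorem tr_inClass (hC : Dfs δ ε θ C) {m n : ℕ} (x : Fin m) (z : Fin (m + n) → Sm δ C)
    (y : Sm δ C) : Tr (sub ε ![(Fin.castAdd n x).castSucc, Fin.last (m + n)]) (sn z y) ↔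
      (z (Fin.castAdd n x)).1 = y.1 := by
  rw [tr_sub, comp_pair, sn_castSucc, sn_last]
  exact hC.eq _ _

/-- **Relativisation.** -/
theorem tr_rl [IsEmpty (L.Relations 0)] (hC : Dfs δ ε θ C) {m : ℕ} (x : Fin m) {i : I} {n : ℕ}
    (φ : L.BoundedFormula Empty n) : ∀ (z : Fin (m + n) → Sm δ C) (v : Fin n → C i),
      (∀ k, z (Fin.natAdd m k) = inn δ i (v k)) → (z (Fin.castAdd n x)).1 = i →
        (Tr (rl ε x φ) z ↔ Tr φ v) := by
  induction φ with
  | falsum => exact fun z v _ _ => Iff.rfl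
  | @equal n t₁ t₂ =>
    intro z v hz _
    obtain ⟨j, rfl⟩ := exists_var t₁
    obtain ⟨k, rfl⟩ := exists_var t₂
    change z (Fin.natAdd m j) = z (Fin.natAdd m k) ↔ v j = v k
    rw [hz, hz]
    exact ⟨fun h => inn_inj h, fun h => by rw [h]⟩
  | @rel n l R ts =>
    intro z v hz _
    choose s hs using fun i => exists_var (ts i)
    obtain rfl : ts = fun i => Term.var (Sum.inr (s i)) := funext hs
    change Structure.RelMap R (fun i => z (Fin.natAdd m (s i))) ↔
      Structure.RelMap R fun i => v (s i)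
    have e1 : (fun i => z (Fin.natAdd m (s i))) = fun l => inn δ i (v (s l)) :=
      funext fun l => hz (s l)
    rw [e1]
    exact relMap_in (pos_of_rel R) R i fun l => v (s l)
  | imp φ ψ ih1 ih2 =>
    intro z v hz hx
    exact imp_congr (ih1 z v hz hx) (ih2 z v hz hx)
  | @all n φ ih =>
    intro z v hz hx
    change (∀ y : Sm δ C, Tr (sub ε ![(Fin.castAdd n x).castSucc, Fin.last (m + n)]) (sn z y) →
      Tr (rl ε x φ) (sn z y)) ↔ ∀ a : C i, Tr φ (sn v a)
    constructor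
    · intro h a
      refine (ih (sn z (inn δ i a)) (sn v a) (snoc_natAdd (inn δ i) z v hz a) ?_).1
        (h (inn δ i a) ((tr_inClass hC x z _).2 hx))
      rw [snoc_castAdd]
      exact hx
    · intro h y hy
      obtain ⟨a, rfl⟩ := eq_inn y ((((tr_inClass hC x z y).1 hy).symm.trans hx : y.1 = i))
      refine (ih (sn z (inn δ i a)) (sn v a) (snoc_natAdd (inn δ i) z v hz a) ?_).2 (h a)
      rw [snoc_castAdd]
      exact hx

/-- tuples in a class with the same type in the sum have the same type in the class -/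
theorem eeq_of_inn [IsEmpty (L.Relations 0)] (hC : Dfs δ ε θ C) (hD : Dfs δ ε θ D) {n : ℕ}
    (hn : 0 < n) {i : I} {j : J} {v : Fin n → C i} {w : Fin n → D j}
    (h : EEq L (fun k => inn δ i (v k)) fun k => inn δ j (w k)) : EEq L v w := by
  intro φ
  have h1 := h.comp inferInstance (m := 1 + n)
    (Fin.addCases (fun _ => ⟨0, hn⟩) fun k => k) (rl ε (0 : Fin 1) φ)
  rw [tr_rl hC 0 φ _ v, tr_rl hD 0 φ _ w] at h1
  · exact h1
  · intro k
    rw [Function.comp_apply, Fin.addCases_right]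
  · rw [Function.comp_apply, Fin.addCases_left]
    rfl
  · intro k
    rw [Function.comp_apply, Fin.addCases_right]
  · rw [Function.comp_apply, Fin.addCases_left]
    rfl

/-- First-order formulas about the index structure are translated. -/
theorem exists_trF [IsEmpty (L.Relations 0)] (δ : Cross L LQ) (ε : L.BoundedFormula Empty 2)
    (θ : ∀ n : ℕ, LQ.Relations n → L.BoundedFormula Empty n) {n : ℕ}
    (φ : (LI L LQ).BoundedFormula Empty n) : ∃ ψ : L.BoundedFormula Empty n,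
      ∀ (I : Type) (C : I → Type) [LQ.Structure I] [∀ i, L.Structure (C i)]
        [∀ i, Nonempty (C i)], Dfs δ ε θ C → ∀ xs : Fin n → Sm δ C,
          Tr ψ xs ↔ Tr φ (fs ∘ xs) := by
  induction φ with
  | falsum => exact ⟨.falsum, fun I C _ _ _ _ xs => Iff.rfl⟩
  | @equal n t₁ t₂ =>
    obtain ⟨j, rfl⟩ := exists_var t₁
    obtain ⟨k, rfl⟩ := exists_var t₂
    refine ⟨sub ε ![j, k], fun I C _ _ _ hC xs => ?_⟩
    rw [tr_sub, comp_pair]
    exact hC.eq _ _
  | @rel n l R ts =>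
    choose s hs using fun i => exists_var (ts i)
    obtain rfl : ts = fun i => Term.var (Sum.inr (s i)) := funext hs
    cases R with
    | q Q =>
      refine ⟨sub (θ _ Q) s, fun I C _ _ _ hC xs => ?_⟩
      rw [tr_sub]
      exact hC.rel _ _ _
    | p σ =>
      refine ⟨rl ε (s 0) σ, fun I C _ _ _ hC xs => ?_⟩
      exact tr_rl hC (s 0) σ xs (Fin.elim0 : Fin 0 → C (xs (s 0)).1) (fun k => k.elim0) rfl
  | imp φ ψ ih1 ih2 =>
    obtain ⟨φ', h1⟩ := ih1
    obtain ⟨ψ', h2⟩ := ih2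
    exact ⟨.imp φ' ψ', fun I C _ _ _ hC xs => imp_congr (h1 I C hC xs) (h2 I C hC xs)⟩
  | @all n φ ih =>
    obtain ⟨φ', h1⟩ := ih
    refine ⟨.all φ', fun I C _ _ _ hC xs => ?_⟩
    change (∀ x : Sm δ C, Tr φ' (sn xs x)) ↔ ∀ i : Ix L LQ C, Tr φ (sn (fs ∘ xs) i)
    constructor
    · intro h i
      have h2 := (h1 I C hC _).1 (h (inn δ (un i) (Classical.arbitrary _)))
      rw [comp_sn] at h2
      exact h2
    · intro h x
      rw [h1 I C hC, comp_sn]
      exact h _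

/-- tuples with the same type have indices with the same type -/
theorem EEq.fs [IsEmpty (L.Relations 0)] [∀ i, Nonempty (C i)] [∀ j, Nonempty (D j)]
    (hC : Dfs δ ε θ C) (hD : Dfs δ ε θ D) {n : ℕ} {xs : Fin n → Sm δ C} {ys : Fin n → Sm δ D}
    (h : EEq L xs ys) : EEq (LI L LQ) (Gen.fs ∘ xs) (Gen.fs ∘ ys) := by
  intro φ
  obtain ⟨ψ, hψ⟩ := exists_trF δ ε θ φ
  rw [← hψ I C hC, ← hψ J D hD]
  exact h ψ

/-- the complete theory of a sum determines that of the index structure -/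
theorem eeq_ix [IsEmpty (L.Relations 0)] [∀ i, Nonempty (C i)] [∀ j, Nonempty (D j)]
    (hC : Dfs δ ε θ C) (hD : Dfs δ ε θ D)
    (h : ∀ σ : L.Sentence, (Sm δ C) ⊨ σ ↔ (Sm δ D) ⊨ σ) :
    EEq (LI L LQ) (Fin.elim0 : Fin 0 → Ix L LQ C) (Fin.elim0 : Fin 0 → Ix L LQ D) := by
  have h1 : EEq L (Fin.elim0 : Fin 0 → Sm δ C) (Fin.elim0 : Fin 0 → Sm δ D) :=
    eeq_elim0 h _ _
  have h2 := EEq.fs hC hD h1
  have e1 : (Gen.fs ∘ (Fin.elim0 : Fin 0 → Sm δ C)) = Fin.elim0 := Subsingleton.elim _ _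
  have e2 : (Gen.fs ∘ (Fin.elim0 : Fin 0 → Sm δ D)) = Fin.elim0 := Subsingleton.elim _ _
  rw [e1, e2] at h2
  exact h2

/-- a sum with an elementarily equivalent index structure satisfies the same sentences -/
theorem model_of_eeq [IsEmpty (L.Relations 0)]
    {Ψ : ∀ n : ℕ, L.Relations n → Set (Σ m : ℕ, LQ.Relations m)}
    {Φ : ∀ n : ℕ, L.Relations n → Set (L.BoundedFormula Empty n)}
    (hU : FinDep δ Ψ Φ) {T : L.Theory} (hCD : EEq (LI L LQ) (Fin.elim0 : Fin 0 → Ix L LQ C)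
      (Fin.elim0 : Fin 0 → Ix L LQ D)) (hM : Sm δ C ⊨ T) : Sm δ D ⊨ T := by
  refine ⟨fun {σ} hσ => ?_⟩
  have h1 : EEq L (Fin.elim0 : Fin 0 → Sm δ C) (Fin.elim0 : Fin 0 → Sm δ D) := by
    refine eeq_sum hU ?_ fun m s i v i' w hm _ _ => (s ⟨0, hm⟩).elim0
    have e1 : (Gen.fs ∘ (Fin.elim0 : Fin 0 → Sm δ C)) = Fin.elim0 := Subsingleton.elim _ _
    have e2 : (Gen.fs ∘ (Fin.elim0 : Fin 0 → Sm δ D)) = Fin.elim0 := Subsingleton.elim _ _
    rw [e1, e2]
    exact hCD
  have h2 := h1 σ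
  rw [tr_sentence, tr_sentence] at h2
  exact h2.1 (hM.realize_of_mem σ hσ)

end Pool.Agent.TH74.Gen
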