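import Pool.Agent.TH74.Martin.Final
import Pool.Agent.TH74.Gen.Defs
import Mathlib.Order.Interval.Finset.Nat

set_option autoImplicit false
set_option linter.unusedSectionVars false

/-!
# Sums over index structures, and their elementary equivalence
-/

namespace Pool.Agent.TH74.Gen

open FirstOrder FirstOrder.Language Pool.Agent.TH74.Martin

variable {L LQ : FirstOrder.Language.{0, 0}}

/-- A rule for the tuples that meet several classes. -/
abbrev Cross (L LQ : FirstOrder.Language.{0, 0}) : Type :=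
  ∀ n : ℕ, L.Relations n → (Fin n → Fin n → Prop) →
    (∀ m : ℕ, LQ.Relations m → (Fin m → Fin n) → Prop) →
      ((Fin n → Fin n) → L.BoundedFormula Empty n → Prop) → Prop

/-- the sum of a family of structures -/
def Sm (_δ : Cross L LQ) {I : Type} (C : I → Type) : Type := Σ i, C i

/-- an element of a summand, as an element of the sum -/
def inn (δ : Cross L LQ) {I : Type} {C : I → Type} (i : I) (a : C i) : Sm δ C := ⟨i, a⟩

/-- the formulas which hold of the subtuples inside the classes -/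
def ld {δ : Cross L LQ} {I : Type} {C : I → Type} [∀ i, L.Structure (C i)] {n : ℕ}
    (t : Fin n → Sm δ C) (s : Fin n → Fin n) (φ : L.BoundedFormula Empty n) : Prop :=
  ∃ (i : I) (v : Fin n → C i), (∀ l, t (s l) = inn δ i (v l)) ∧ Tr φ v

variable [L.IsRelational] {δ : Cross L LQ} {I J : Type} {C : I → Type} {D : J → Type}

instance [LQ.Structure I] [∀ i, L.Structure (C i)] : L.Structure (Sm δ C) where
  funMap := fun f => isEmptyElim f
  RelMap := fun {n} R t =>
    (∃ (i : I) (s : Fin n → C i), (∀ j, t j = ⟨i, s j⟩) ∧ Structure.RelMap R s) ∨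
      ((∃ j k, (t j).1 ≠ (t k).1) ∧ δ n R (fun j k => (t j).1 = (t k).1)
        (fun _ Q s => Structure.RelMap Q fun l => (t (s l)).1) (ld t))

theorem inn_inj {i : I} {a b : C i} (h : inn δ i a = inn δ i b) : a = b := by
  have h1 : HEq a b := (Sigma.mk.inj_iff.1 h).2
  exact eq_of_heq h1

theorem eq_inn {i : I} (x : Sm δ C) (h : x.1 = i) : ∃ a : C i, x = inn δ i a := by
  subst h
  exact ⟨x.2, rfl⟩

variable [LQ.Structure I] [LQ.Structure J] [∀ i, L.Structure (C i)] [∀ j, L.Structure (D j)]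

theorem relMap_in {n : ℕ} (hn : 0 < n) (R : L.Relations n) (i : I) (s : Fin n → C i) :
    Structure.RelMap R (fun j => inn δ i (s j)) ↔ Structure.RelMap R s := by
  constructor
  · rintro (⟨i', s', h1, h2⟩ | ⟨⟨j, k, h⟩, -⟩)
    · obtain rfl : i = i' := congrArg Sigma.fst (h1 ⟨0, hn⟩)
      have : s = s' := funext fun j => inn_inj (h1 j)
      rw [this]
      exact h2
    · exact absurd rfl h
  · intro h
    exact Or.inl ⟨i, s, fun _ => rfl, h⟩

theorem relMap_out {n : ℕ} (R : L.Relations n) (t : Fin n → Sm δ C)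
    (h : ∃ j k, (t j).1 ≠ (t k).1) :
    Structure.RelMap R t ↔ δ n R (fun j k => (t j).1 = (t k).1)
      (fun _ Q s => Structure.RelMap Q fun l => (t (s l)).1) (ld t) := by
  constructor
  · rintro (⟨i, s, h1, -⟩ | ⟨-, h2⟩)
    · obtain ⟨j, k, hjk⟩ := h
      exact absurd (by rw [h1 j, h1 k]) hjk
    · exact h2
  · intro h2
    exact Or.inr ⟨h, h2⟩

/-! ### Index structures -/

/-- the index structure of a sum -/
def Ix (_L _LQ : FirstOrder.Language.{0, 0}) {I : Type} (_C : I → Type) : Type := I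

/-- an index, as an element of the index structure -/
def ix (L LQ : FirstOrder.Language.{0, 0}) {I : Type} (C : I → Type) (i : I) : Ix L LQ C := i

/-- an element of the index structure, as an index -/
def un {L LQ : FirstOrder.Language.{0, 0}} {I : Type} {C : I → Type} (i : Ix L LQ C) : I := i

/-- a symbol of the index language -/
def qs {L LQ : FirstOrder.Language.{0, 0}} {n : ℕ} (Q : LQ.Relations n) :
    (LI L LQ).Relations n := IxRel.q Q

/-- a symbol of the index language -/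
def ps {L : FirstOrder.Language.{0, 0}} (LQ : FirstOrder.Language.{0, 0})
    (σ : L.BoundedFormula Empty 0) : (LI L LQ).Relations 1 := IxRel.p σ

instance : (LI L LQ).IsRelational := fun _ => inferInstanceAs (IsEmpty Empty)

/-- the interpretation of the symbols of the index language -/
def IxRel.interp (L LQ : FirstOrder.Language.{0, 0}) {I : Type} (C : I → Type)
    [LQ.Structure I] [∀ i, L.Structure (C i)] : ∀ {n : ℕ}, IxRel L LQ n → (Fin n → I) → Prop
  | _, .q Q, t => Structure.RelMap Q t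
  | _, .p σ, t => Tr σ (Fin.elim0 : Fin 0 → C (t 0))

instance : (LI L LQ).Structure (Ix L LQ C) where
  funMap := fun f => Empty.elim f
  RelMap := fun {_} R t => IxRel.interp L LQ C R t

/-- the index of an element -/
def fs (x : Sm δ C) : Ix L LQ C := ix L LQ C x.1

theorem relMap_q {n : ℕ} (Q : LQ.Relations n) (t : Fin n → Ix L LQ C) :
    Structure.RelMap (qs (L := L) Q) t ↔ Structure.RelMap Q fun l => un (t l) :=
  Iff.rfl

theorem relMap_p (σ : L.BoundedFormula Empty 0) (t : Fin 1 → Ix L LQ C) :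
    Structure.RelMap (ps LQ σ) t ↔ Tr σ (Fin.elim0 : Fin 0 → C (un (t 0))) :=
  Iff.rfl

/-! ### Equivalence inside the classes -/

/-- the same pattern, and equivalence of rank `r` inside the classes -/
def LE (F : Set (Σ n : ℕ, L.Relations n)) (r : ℕ) {n : ℕ} (xs : Fin n → Sm δ C)
    (ys : Fin n → Sm δ D) : Prop :=
  (∀ j k, (xs j).1 = (xs k).1 ↔ (ys j).1 = (ys k).1) ∧
    ∀ (m : ℕ) (s : Fin m → Fin n) (i : I) (v : Fin m → C i) (i' : J) (w : Fin m → D i'), 0 < m →
      (∀ l, xs (s l) = inn δ i (v l)) → (∀ l, ys (s l) = inn δ i' (w l)) → BF F r v w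

theorem LE.symm {F : Set (Σ n : ℕ, L.Relations n)} {r n : ℕ} {xs : Fin n → Sm δ C}
    {ys : Fin n → Sm δ D} (h : LE F r xs ys) : LE F r ys xs :=
  ⟨fun j k => (h.1 j k).symm, fun m s i v i' w hm h1 h2 => (h.2 m s i' w i v hm h2 h1).symm⟩

theorem LE.mono_rank {F : Set (Σ n : ℕ, L.Relations n)} {r r' n : ℕ} (hr : r ≤ r')
    {xs : Fin n → Sm δ C} {ys : Fin n → Sm δ D} (h : LE F r' xs ys) : LE F r xs ys :=
  ⟨h.1, fun m s i v i' w hm h1 h2 => (h.2 m s i v i' w hm h1 h2).mono_rank hr⟩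

/-- extension of patterns -/
theorem pattern_sn {n : ℕ} {xs : Fin n → Sm δ C} {ys : Fin n → Sm δ D}
    (h : ∀ j k, (xs j).1 = (xs k).1 ↔ (ys j).1 = (ys k).1) {a : Sm δ C} {b : Sm δ D}
    (hab : ∀ j, (xs j).1 = a.1 ↔ (ys j).1 = b.1) :
    ∀ j k, (sn xs a j).1 = (sn xs a k).1 ↔ (sn ys b j).1 = (sn ys b k).1 := by
  intro j k
  refine Fin.lastCases ?_ (fun j => ?_) j
  · refine Fin.lastCases ?_ (fun k => ?_) k
    · simp only [sn_last]
    · simp only [sn_last, sn_castSucc]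
      exact ⟨fun h => ((hab k).1 h.symm).symm, fun h => ((hab k).2 h.symm).symm⟩
  · refine Fin.lastCases ?_ (fun k => ?_) k
    · simp only [sn_last, sn_castSucc]
      exact hab j
    · simp only [sn_castSucc]
      exact h j k

/-- tuples in old classes -/
theorem LE.old_classes {F : Set (Σ n : ℕ, L.Relations n)} {r n : ℕ} {xs : Fin n → Sm δ C}
    {ys : Fin n → Sm δ D} (h : LE F (r + 1) xs ys) {i : I} (a : C i) (y : Sm δ D) (m : ℕ)
    (s' : Fin m → Fin (n + 1)) (i1 : I) (v1 : Fin m → C i1) (i1' : J) (w1 : Fin m → D i1')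
    (hm : 0 < m) (h1 : ∀ l, sn xs (inn δ i a) (s' l) = inn δ i1 (v1 l))
    (h2 : ∀ l, sn ys y (s' l) = inn δ i1' (w1 l)) (hi1 : ¬ i1 = i) : BF F r v1 w1 := by
  have e1 : ∀ l, ∃ z : Fin n, s' l = z.castSucc := by
    intro l
    have e1 := h1 l
    revert e1
    refine Fin.lastCases (motive := fun z => sn xs (inn δ i a) z = inn δ i1 (v1 l) →
      ∃ z' : Fin n, z = z'.castSucc) ?_ (fun z => ?_) (s' l)
    · intro e1
      rw [sn_last] at e1
      exact absurd (congrArg Sigma.fst e1).symm hi1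
    · intro _
      exact ⟨z, rfl⟩
  choose s'' hs'' using e1
  refine (h.2 m s'' i1 v1 i1' w1 hm (fun l => ?_) fun l => ?_).mono_rank (Nat.le_succ r)
  · rw [← h1 l, hs'' l, sn_castSucc]
  · rw [← h2 l, hs'' l, sn_castSucc]

/-- Extension by an element of an old class. -/
theorem LE.forth_old {F : Set (Σ n : ℕ, L.Relations n)} {r n : ℕ} {xs : Fin n → Sm δ C}
    {ys : Fin n → Sm δ D} (h : LE F (r + 1) xs ys) {i : I} (a : C i) (j : Fin n)
    (hj : (xs j).1 = i) :
    ∃ b : D (ys j).1, LE F r (sn xs (inn δ i a)) (sn ys (inn δ (ys j).1 b)) := by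
  classical
  let s : Fin n → Fin n := fun k => if (xs k).1 = (xs j).1 then k else j
  have hs : ∀ k, (xs (s k)).1 = i := by
    intro k
    by_cases hk : (xs k).1 = (xs j).1
    · have e1 : s k = k := if_pos hk
      rw [e1, hk, hj]
    · have e1 : s k = j := if_neg hk
      rw [e1, hj]
  have hs' : ∀ k, (ys (s k)).1 = (ys j).1 := fun k => (h.1 _ _).1 ((hs k).trans hj.symm)
  choose v hv using fun k => eq_inn (xs (s k)) (hs k)
  choose w hw using fun k => eq_inn (ys (s k)) (hs' k)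
  obtain ⟨b, hb⟩ := (h.2 n s i v (ys j).1 w j.pos hv hw).2.1 a
  refine ⟨b, pattern_sn h.1 (fun k => ?_), ?_⟩
  · change (xs k).1 = i ↔ (ys k).1 = (ys j).1
    rw [← h.1, hj]
  · intro m s' i1 v1 i1' w1 hm h1 h2
    by_cases hi1 : i1 = i
    · subst hi1
      have e0 : i1' = (ys j).1 := by
        have e1 := h2 ⟨0, hm⟩
        have e2 := h1 ⟨0, hm⟩
        revert e1 e2
        refine Fin.lastCases (motive := fun z => sn ys (inn δ (ys j).1 b) z =
          inn δ i1' (w1 ⟨0, hm⟩) → sn xs (inn δ i1 a) z = inn δ i1 (v1 ⟨0, hm⟩) →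
          i1' = (ys j).1) ?_ (fun z => ?_) (s' ⟨0, hm⟩)
        · intro e1 _
          rw [sn_last] at e1
          exact (congrArg Sigma.fst e1).symm
        · intro e1 e2
          rw [sn_castSucc] at e1 e2
          have e3 : (xs z).1 = (xs j).1 := by rw [e2, hj]; rfl
          rw [h.1, e1] at e3
          exact e3
      subst e0
      have e1 : v1 = sn v a ∘ s' := by
        funext l
        have e1 := h1 l
        revert e1
        simp only [Function.comp_apply]
        refine Fin.lastCases (motive := fun z => sn xs (inn δ i1 a) z = inn δ i1 (v1 l) →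
          v1 l = sn v a z) ?_ (fun z => ?_) (s' l)
        · intro e1
          rw [sn_last] at e1 ⊢
          exact (inn_inj e1).symm
        · intro e1
          rw [sn_castSucc] at e1 ⊢
          have e3 : (xs z).1 = (xs j).1 := by rw [e1, hj]; rfl
          have e4 : s z = z := if_pos e3
          have e5 := hv z
          rw [e4, e1] at e5
          exact inn_inj e5
      have e2 : w1 = sn w b ∘ s' := by
        funext l
        have e1 := h2 l
        revert e1
        simp only [Function.comp_apply]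
        refine Fin.lastCases (motive := fun z => sn ys (inn δ (ys j).1 b) z =
          inn δ (ys j).1 (w1 l) → w1 l = sn w b z) ?_ (fun z => ?_) (s' l)
        · intro e1
          rw [sn_last] at e1 ⊢
          exact (inn_inj e1).symm
        · intro e1
          rw [sn_castSucc] at e1 ⊢
          have e3 : (xs z).1 = (xs j).1 := (h.1 _ _).2 (by rw [e1]; rfl)
          have e4 : s z = z := if_pos e3
          have e5 := hw z
          rw [e4, e1] at e5
          exact inn_inj e5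
      rw [e1, e2]
      exact hb.comp s'
    · exact h.old_classes a _ m s' i1 v1 i1' w1 hm h1 h2 hi1

/-- Extension by an element of a new class. -/
theorem LE.forth_new {F : Set (Σ n : ℕ, L.Relations n)} {r n : ℕ} {xs : Fin n → Sm δ C}
    {ys : Fin n → Sm δ D} (h : LE F (r + 1) xs ys) {i : I} (a : C i)
    (hi : ∀ j, (xs j).1 ≠ i) {i' : J} (hi' : ∀ j, (ys j).1 ≠ i') (b : D i')
    (hb : BF F r (fun _ : Fin 1 => a) (sn Fin.elim0 b)) :
    LE F r (sn xs (inn δ i a)) (sn ys (inn δ i' b)) := by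
  refine ⟨pattern_sn h.1 (fun k => ?_), ?_⟩
  · exact iff_of_false (fun h => hi k h) (hi' k)
  · intro m s' i1 v1 i1' w1 hm h1 h2
    by_cases hi1 : i1 = i
    · subst hi1
      have e1 : ∀ l, s' l = Fin.last n := by
        intro l
        have e1 := h1 l
        revert e1
        refine Fin.lastCases (motive := fun z => sn xs (inn δ i1 a) z = inn δ i1 (v1 l) →
          z = Fin.last n) ?_ (fun z => ?_) (s' l)
        · intro _
          rfl
        · intro e1
          rw [sn_castSucc] at e1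
          exact absurd (congrArg Sigma.fst e1) (hi z)
      have e2 : ∀ l, v1 l = a := by
        intro l
        have e2 := h1 l
        rw [e1 l, sn_last] at e2
        exact (inn_inj e2).symm
      have e3 : i' = i1' := by
        have e3 := h2 ⟨0, hm⟩
        rw [e1, sn_last] at e3
        exact congrArg Sigma.fst e3
      subst e3
      have e4 : ∀ l, w1 l = b := by
        intro l
        have e2 := h2 l
        rw [e1 l, sn_last] at e2
        exact (inn_inj e2).symm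
      have e5 := hb.comp (fun _ : Fin m => (0 : Fin 1))
      have e6 : v1 = (fun _ : Fin 1 => a) ∘ (fun _ : Fin m => (0 : Fin 1)) := funext e2
      have e7 : w1 = (sn Fin.elim0 b : Fin 1 → D i') ∘ (fun _ : Fin m => (0 : Fin 1)) := by
        funext l
        rw [e4 l]
        exact (sn_last _ _).symm
      rw [e6, e7]
      exact e5
    · exact h.old_classes a _ m s' i1 v1 i1' w1 hm h1 h2 hi1

/-- The rule depends on finitely many symbols and formulas for every symbol. -/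
structure FinDep (δ : Cross L LQ) (Ψ : ∀ n : ℕ, L.Relations n → Set (Σ m : ℕ, LQ.Relations m))
    (Φ : ∀ n : ℕ, L.Relations n → Set (L.BoundedFormula Empty n)) : Prop where
  finQ : ∀ (n : ℕ) (R : L.Relations n), (Ψ n R).Finite
  fin : ∀ (n : ℕ) (R : L.Relations n), (Φ n R).Finite
  dep : ∀ (n : ℕ) (R : L.Relations n) (π : Fin n → Fin n → Prop)
    (ρ ρ' : ∀ m : ℕ, LQ.Relations m → (Fin m → Fin n) → Prop)
    (c c' : (Fin n → Fin n) → L.BoundedFormula Empty n → Prop),
      (∀ Q ∈ Ψ n R, ∀ s, ρ Q.1 Q.2 s ↔ ρ' Q.1 Q.2 s) →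
      (∀ φ ∈ Φ n R, ∀ s, c s φ ↔ c' s φ) → (δ n R π ρ c ↔ δ n R π ρ' c')

theorem LE.base [IsEmpty (L.Relations 0)]
    {Ψ : ∀ n : ℕ, L.Relations n → Set (Σ m : ℕ, LQ.Relations m)}
    {Φ : ∀ n : ℕ, L.Relations n → Set (L.BoundedFormula Empty n)}
    (hU : FinDep δ Ψ Φ) {F F' : Set (Σ n : ℕ, L.Relations n)} {r₀ : ℕ} (hFF : F ⊆ F')
    (hF : ∀ R ∈ F, ∀ φ ∈ Φ R.1 R.2, ∀ (M N : Type) [L.Structure M] [L.Structure N]
      (v : Fin R.1 → M) (w : Fin R.1 → N), BF F' r₀ v w → (Tr φ v ↔ Tr φ w))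
    {n : ℕ} {xs : Fin n → Sm δ C} {ys : Fin n → Sm δ D}
    (hQ : ∀ R ∈ F, ∀ Q ∈ Ψ R.1 R.2, ∀ s : Fin Q.1 → Fin n,
      Structure.RelMap Q.2 (fun l => (xs (s l)).1) ↔ Structure.RelMap Q.2 fun l => (ys (s l)).1)
    (h : LE F' r₀ xs ys) : BF F 0 xs ys := by
  constructor
  · intro j k
    have key : ∀ (e1 : (xs j).1 = (xs k).1) (e2 : (ys j).1 = (ys k).1),
        xs j = xs k ↔ ys j = ys k := by
      intro e1 e2
      obtain ⟨a, ha⟩ := eq_inn (xs k) e1.symm
      obtain ⟨b, hb⟩ := eq_inn (ys k) e2.symm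
      have h1 := h.2 2 ![j, k] (xs j).1 ![(xs j).2, a] (ys j).1 ![(ys j).2, b] Nat.two_pos
        (fun l => by
          fin_cases l
          · rfl
          · exact ha)
        (fun l => by
          fin_cases l
          · rfl
          · exact hb)
      have h2 := (h1.mono_rank (Nat.zero_le _)).1 0 1
      simp only [Matrix.cons_val_zero, Matrix.cons_val_one] at h2
      constructor
      · intro h3
        rw [hb, ← h2.1]
        · rfl
        · refine inn_inj (δ := δ) (i := (xs j).1) ?_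
          rw [← ha]
          exact h3
      · intro h3
        rw [ha, ← h2.2]
        · rfl
        · refine inn_inj (δ := δ) (i := (ys j).1) ?_
          rw [← hb]
          exact h3
    constructor
    · intro e
      have e1 : (xs j).1 = (xs k).1 := congrArg Sigma.fst e
      exact (key e1 ((h.1 j k).1 e1)).1 e
    · intro e
      have e2 : (ys j).1 = (ys k).1 := congrArg Sigma.fst e
      exact (key ((h.1 j k).2 e2) e2).2 e
  · intro R hR s
    have hn : 0 < R.1 := by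
      rcases R with ⟨m, R⟩
      cases m with
      | zero => exact isEmptyElim R
      | succ m => exact Nat.succ_pos m
    by_cases hs : ∃ j k, (xs (s j)).1 ≠ (xs (s k)).1
    · have hs' : ∃ j k, (ys (s j)).1 ≠ (ys (s k)).1 := by
        obtain ⟨j, k, hjk⟩ := hs
        exact ⟨j, k, fun e => hjk ((h.1 _ _).2 e)⟩
      rw [relMap_out R.2 (xs ∘ s) hs, relMap_out R.2 (ys ∘ s) hs']
      have e1 : (fun j k => ((xs ∘ s) j).1 = ((xs ∘ s) k).1) =
          fun j k => ((ys ∘ s) j).1 = ((ys ∘ s) k).1 := by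
        funext j k
        exact propext (h.1 _ _)
      rw [e1]
      refine hU.dep _ _ _ _ _ _ _ (fun Q hQ' s' => hQ R hR Q hQ' (s ∘ s')) fun φ hφ s' => ?_
      constructor
      · rintro ⟨i, v, h1, h2⟩
        have h3 : ∀ l, (ys (s (s' l))).1 = (ys (s (s' ⟨0, hn⟩))).1 := fun l =>
          (h.1 _ _).1 ((congrArg Sigma.fst (h1 l)).trans (congrArg Sigma.fst (h1 ⟨0, hn⟩)).symm)
        choose w hw using fun l => eq_inn (ys (s (s' l))) (h3 l)
        exact ⟨_, w, hw, (hF R hR φ hφ _ _ v w (h.2 R.1 (s ∘ s') i v _ w hn h1 hw)).1 h2⟩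
      · rintro ⟨i, w, h1, h2⟩
        have h3 : ∀ l, (xs (s (s' l))).1 = (xs (s (s' ⟨0, hn⟩))).1 := fun l =>
          (h.1 _ _).2 ((congrArg Sigma.fst (h1 l)).trans (congrArg Sigma.fst (h1 ⟨0, hn⟩)).symm)
        choose v hv using fun l => eq_inn (xs (s (s' l))) (h3 l)
        exact ⟨_, v, hv, (hF R hR φ hφ _ _ v w (h.2 R.1 (s ∘ s') _ v i w hn hv h1)).2 h2⟩
    · have hs1 : ∀ k, (xs (s k)).1 = (xs (s ⟨0, hn⟩)).1 := by
        intro k
        by_contra hk
        exact hs ⟨_, _, hk⟩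
      have hs2 : ∀ k, (ys (s k)).1 = (ys (s ⟨0, hn⟩)).1 := fun k => (h.1 _ _).1 (hs1 k)
      choose v hv using fun k => eq_inn (xs (s k)) (hs1 k)
      choose w hw using fun k => eq_inn (ys (s k)) (hs2 k)
      have e1 : xs ∘ s = fun k => inn δ _ (v k) := funext hv
      have e2 : ys ∘ s = fun k => inn δ _ (w k) := funext hw
      rw [e1, e2, relMap_in hn, relMap_in hn]
      have h3 := (h.2 R.1 s _ v _ w hn hv hw).mono_rank (Nat.zero_le _)
      exact h3.2 R (hFF hR) id

/-- finitely many sentences determine which rank `r` types of elements are realized -/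
theorem exists_sentences (F : Set (Σ n : ℕ, L.Relations n)) (hF : F.Finite) (r : ℕ) :
    ∃ H : Set (L.BoundedFormula Empty 0), H.Finite ∧
      ∀ (M N : Type) [L.Structure M] [L.Structure N] (a : M),
        (∀ σ ∈ H, Tr σ (Fin.elim0 : Fin 0 → M) ↔ Tr σ (Fin.elim0 : Fin 0 → N)) →
          ∃ b : N, BF F r (fun _ : Fin 1 => a) (sn Fin.elim0 b) := by
  obtain ⟨H, hH, h⟩ := exists_hintikka (L := L) F hF r 1
  refine ⟨(fun A => (sgn H hH A).ex) '' {A | A ⊆ H}, hH.finite_subsets.image _, ?_⟩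
  intro M N _ _ a hMN
  have e1 : (fun _ : Fin 1 => a) = sn Fin.elim0 a := by
    funext z
    obtain rfl : z = Fin.last 0 := Subsingleton.elim _ _
    rw [sn_last]
  have h1 := hMN _ ⟨{ψ | ψ ∈ H ∧ Tr ψ (fun _ : Fin 1 => a)}, fun ψ hψ => hψ.1, rfl⟩
  have h2 : Tr (sgn H hH {ψ | ψ ∈ H ∧ Tr ψ (fun _ : Fin 1 => a)}).ex
      (Fin.elim0 : Fin 0 → M) := by
    unfold Tr
    rw [BoundedFormula.realize_ex]
    refine ⟨a, (tr_sgn H hH _ (sn Fin.elim0 a)).2 fun ψ hψ => ?_⟩
    rw [← e1]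
    exact ⟨fun h3 => h3.2, fun h3 => ⟨hψ, h3⟩⟩
  have h3 := h1.1 h2
  unfold Tr at h3
  rw [BoundedFormula.realize_ex] at h3
  obtain ⟨b, hb⟩ := h3
  refine ⟨b, (h M N _ _).2 fun ψ hψ => ?_⟩
  have h4 := (tr_sgn H hH _ (sn Fin.elim0 b)).1 hb ψ hψ
  exact ⟨fun h5 => h4.1 ⟨hψ, h5⟩, fun h5 => (h4.2 h5).2⟩

/-- finite sets of symbols for the extension of tuples -/
theorem exists_seq (δ : Cross L LQ) (F' : Set (Σ n : ℕ, L.Relations n)) (hF' : F'.Finite) (r₀ : ℕ)
    (G₀ : Set (Σ n : ℕ, (LI L LQ).Relations n)) (hG₀ : G₀.Finite) :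
    ∃ G : ℕ → Set (Σ n : ℕ, (LI L LQ).Relations n), (∀ r, (G r).Finite) ∧ (∀ r, G₀ ⊆ G r) ∧
      (∀ r, G r ⊆ G (r + 1)) ∧
      ∀ (I J : Type) (C : I → Type) (D : J → Type) [LQ.Structure I] [LQ.Structure J]
        [∀ i, L.Structure (C i)] [∀ j, L.Structure (D j)] (r n : ℕ) (xs : Fin n → Sm δ C)
        (ys : Fin n → Sm δ D), BF (L := LI L LQ) (G (r + 1)) (r + 1) (fs ∘ xs) (fs ∘ ys) →
          LE F' (r + 1 + r₀) xs ys → ∀ x : Sm δ C, ∃ y : Sm δ D,
            BF (L := LI L LQ) (G r) r (fs ∘ sn xs x) (fs ∘ sn ys y) ∧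
              LE F' (r + r₀) (sn xs x) (sn ys y) := by
  choose H hH hH' using fun r : ℕ => exists_sentences F' hF' (r + r₀)
  refine ⟨fun r => G₀ ∪ ⋃ k ∈ Set.Iio r,
    (fun σ => (⟨1, ps LQ σ⟩ : Σ n : ℕ, (LI L LQ).Relations n)) '' H k, fun r => ?_, fun r => ?_,
    fun r => ?_, ?_⟩
  · exact hG₀.union ((Set.finite_Iio r).biUnion fun k _ => (hH k).image _)
  · exact Set.subset_union_left
  · refine Set.union_subset_union_right _ ?_
    refine Set.iUnion₂_subset fun k hk => ?_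
    exact Set.subset_biUnion_of_mem (u := fun k =>
      (fun σ => (⟨1, ps LQ σ⟩ : Σ n : ℕ, (LI L LQ).Relations n)) '' H k)
      (Set.mem_Iio.2 ((Set.mem_Iio.1 hk).trans (Nat.lt_succ_self r)))
  · intro I J C D _ _ _ _ r n xs ys hB h x
    have h' : LE F' (r + r₀ + 1) xs ys := by
      have e1 : r + 1 + r₀ = r + r₀ + 1 := by omega
      rwa [e1] at h
    have hsub : (G₀ ∪ ⋃ k ∈ Set.Iio r,
        (fun σ => (⟨1, ps LQ σ⟩ : Σ n : ℕ, (LI L LQ).Relations n)) '' H k) ⊆
        G₀ ∪ ⋃ k ∈ Set.Iio (r + 1),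
        (fun σ => (⟨1, ps LQ σ⟩ : Σ n : ℕ, (LI L LQ).Relations n)) '' H k := by
      refine Set.union_subset_union_right _ (Set.iUnion₂_subset fun k hk => ?_)
      exact Set.subset_biUnion_of_mem (u := fun k =>
        (fun σ => (⟨1, ps LQ σ⟩ : Σ n : ℕ, (LI L LQ).Relations n)) '' H k)
        (Set.mem_Iio.2 ((Set.mem_Iio.1 hk).trans (Nat.lt_succ_self r)))
    obtain ⟨i, a, rfl⟩ : ∃ (i : I) (a : C i), x = inn δ i a := ⟨x.1, x.2, rfl⟩
    obtain ⟨i', hi'⟩ : ∃ i' : J, BF (L := LI L LQ)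
        (G₀ ∪ ⋃ k ∈ Set.Iio (r + 1),
          (fun σ => (⟨1, ps LQ σ⟩ : Σ n : ℕ, (LI L LQ).Relations n)) '' H k) r
        (sn (fs ∘ xs) (ix L LQ C i)) (sn (fs ∘ ys) (ix L LQ D i')) := hB.2.1 (ix L LQ C i)
    have hpat : ∀ j, (xs j).1 = i ↔ (ys j).1 = i' := by
      intro j
      have h1 := (hi'.mono_rank (Nat.zero_le _)).1 j.castSucc (Fin.last n)
      rw [sn_castSucc, sn_castSucc, sn_last, sn_last] at h1
      exact h1
    by_cases hi : ∃ j, (xs j).1 = i
    · obtain ⟨j, hj⟩ := hi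
      obtain rfl := (hpat j).1 hj
      obtain ⟨b, hb⟩ := h'.forth_old a j hj
      refine ⟨_, ?_, hb⟩
      rw [comp_sn, comp_sn]
      exact hi'.mono hsub
    · have h1 : ∀ σ ∈ H r, Tr σ (Fin.elim0 : Fin 0 → C i) ↔ Tr σ (Fin.elim0 : Fin 0 → D i') := by
        intro σ hσ
        have h2 := (hi'.mono_rank (Nat.zero_le _)).2 ⟨1, ps LQ σ⟩
          (Or.inr (Set.mem_iUnion₂.2 ⟨r, Set.mem_Iio.2 (Nat.lt_succ_self r), σ, hσ, rfl⟩))
          (fun _ => Fin.last n)
        have e1 : ∀ {X : Type} (u : Fin n → X) (z : X),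
            sn u z ∘ (fun _ : Fin 1 => Fin.last n) = fun _ => z := by
          intro X u z
          funext t
          rw [Function.comp_apply, sn_last]
        rw [e1, e1] at h2
        exact h2
      obtain ⟨b, hb⟩ := hH' r (C i) (D i') a h1
      refine ⟨inn δ i' b, ?_, h'.forth_new a
        (fun j hj => hi ⟨j, hj⟩) (fun j hj => hi ⟨j, (hpat j).2 hj⟩) b hb⟩
      rw [comp_sn, comp_sn]
      exact hi'.mono hsub

/-- the data for the induction -/
theorem exists_bound {Ψ : ∀ n : ℕ, L.Relations n → Set (Σ m : ℕ, LQ.Relations m)}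
    {Φ : ∀ n : ℕ, L.Relations n → Set (L.BoundedFormula Empty n)}
    (hU : FinDep δ Ψ Φ) {F : Set (Σ n : ℕ, L.Relations n)} (hFf : F.Finite) :
    ∃ (F' : Set (Σ n : ℕ, L.Relations n)) (r₀ : ℕ), F ⊆ F' ∧ F'.Finite ∧
      ∀ R ∈ F, ∀ φ ∈ Φ R.1 R.2, ∀ (M N : Type) [L.Structure M] [L.Structure N]
        (v : Fin R.1 → M) (w : Fin R.1 → N), BF F' r₀ v w → (Tr φ v ↔ Tr φ w) := by
  obtain ⟨F', r₀, hF', h⟩ := exists_rank_fin (L := L)
    (⋃ R ∈ F, (fun φ => (⟨R.1, φ⟩ : Σ n : ℕ, L.BoundedFormula Empty n)) '' Φ R.1 R.2)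
    (hFf.biUnion fun R _ => (hU.fin _ _).image _)
  refine ⟨F ∪ F', r₀, Set.subset_union_left, hFf.union hF', fun R hR φ hφ M N _ _ v w hvw => ?_⟩
  exact h ⟨R.1, φ⟩ (Set.mem_iUnion₂.2 ⟨R, hR, φ, hφ, rfl⟩) M N v w
    (hvw.mono Set.subset_union_right)

/-- **Elementary equivalence of sums**, finite rank: there is a sequence of relations `Jt r`
between tuples of sums, with the back-and-forth property, which imply the equivalence of rank `r`
with respect to `F` and the same truth values for finitely many symbols of the index language. -/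
theorem exists_fv [IsEmpty (L.Relations 0)]
    {Ψ : ∀ n : ℕ, L.Relations n → Set (Σ m : ℕ, LQ.Relations m)}
    {Φ : ∀ n : ℕ, L.Relations n → Set (L.BoundedFormula Empty n)}
    (hU : FinDep δ Ψ Φ) {F : Set (Σ n : ℕ, L.Relations n)} (hFf : F.Finite)
    (G₁ : Set (Σ n : ℕ, (LI L LQ).Relations n)) (hG₁ : G₁.Finite) :
    ∃ (F' : Set (Σ n : ℕ, L.Relations n)) (r₀ : ℕ)
      (G : ℕ → Set (Σ n : ℕ, (LI L LQ).Relations n)), F'.Finite ∧ (∀ r, (G r).Finite) ∧
      (∀ r, G₁ ⊆ G r) ∧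
      (∀ (I J : Type) (C : I → Type) (D : J → Type) [LQ.Structure I] [LQ.Structure J]
        [∀ i, L.Structure (C i)] [∀ j, L.Structure (D j)] (r n : ℕ) (xs : Fin n → Sm δ C)
        (ys : Fin n → Sm δ D), BF (L := LI L LQ) (G (r + 1)) (r + 1) (fs ∘ xs) (fs ∘ ys) →
          LE F' (r + 1 + r₀) xs ys → ∀ x : Sm δ C, ∃ y : Sm δ D,
            BF (L := LI L LQ) (G r) r (fs ∘ sn xs x) (fs ∘ sn ys y) ∧
              LE F' (r + r₀) (sn xs x) (sn ys y)) ∧
      ∀ (r : ℕ) (I J : Type) (C : I → Type) (D : J → Type) [LQ.Structure I] [LQ.Structure J]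
        [∀ i, L.Structure (C i)] [∀ j, L.Structure (D j)] (n : ℕ) (xs : Fin n → Sm δ C)
        (ys : Fin n → Sm δ D), BF (L := LI L LQ) (G r) r (fs ∘ xs) (fs ∘ ys) →
          LE F' (r + r₀) xs ys → BF F r xs ys := by
  obtain ⟨F', r₀, hFF, hF', h3⟩ := exists_bound hU hFf
  obtain ⟨G, hG, hG₀, hGm, hforth⟩ := exists_seq δ F' hF' r₀
    (G₁ ∪ ⋃ R ∈ F, (fun Q : (Σ m : ℕ, LQ.Relations m) =>
      (⟨Q.1, qs Q.2⟩ : Σ n : ℕ, (LI L LQ).Relations n)) '' Ψ R.1 R.2)
    (hG₁.union (hFf.biUnion fun R _ => (hU.finQ _ _).image _))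
  refine ⟨F', r₀, G, hF', hG, fun r => Set.subset_union_left.trans (hG₀ r), hforth, ?_⟩
  intro r
  induction r with
  | zero =>
    intro I J C D _ _ _ _ n xs ys hB h
    rw [Nat.zero_add] at h
    refine h.base hU hFF h3 fun R hR Q hQ s => ?_
    exact hB.2 ⟨Q.1, qs Q.2⟩ (hG₀ 0 (Or.inr (Set.mem_iUnion₂.2 ⟨R, hR, Q, hQ, rfl⟩))) s
  | succ r ih =>
    intro I J C D _ _ _ _ n xs ys hB h
    refine ⟨ih I J C D n xs ys (hB.1.mono (hGm r)) (h.mono_rank (by omega)), fun c => ?_,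
      fun d => ?_⟩
    · obtain ⟨y, h1, h2⟩ := hforth I J C D r n xs ys hB h c
      exact ⟨y, ih I J C D (n + 1) _ _ h1 h2⟩
    · obtain ⟨y, h1, h2⟩ := hforth J I D C r n ys xs hB.symm h.symm d
      exact ⟨y, (ih J I D C (n + 1) _ _ h1 h2).symm⟩

/-- **Elementary equivalence of sums.** -/
theorem eeq_sum [IsEmpty (L.Relations 0)]
    {Ψ : ∀ n : ℕ, L.Relations n → Set (Σ m : ℕ, LQ.Relations m)}
    {Φ : ∀ n : ℕ, L.Relations n → Set (L.BoundedFormula Empty n)}
    (hU : FinDep δ Ψ Φ) {n : ℕ} {xs : Fin n → Sm δ C} {ys : Fin n → Sm δ D}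
    (h1 : EEq (LI L LQ) (fs ∘ xs) (fs ∘ ys))
    (h2 : ∀ (m : ℕ) (s : Fin m → Fin n) (i : I) (v : Fin m → C i) (i' : J) (w : Fin m → D i'),
      0 < m → (∀ l, xs (s l) = inn δ i (v l)) → (∀ l, ys (s l) = inn δ i' (w l)) →
        EEq L v w) : EEq L xs ys := by
  refine eeq_of_bf inferInstance fun F hF r => ?_
  obtain ⟨F', r₀, G, hF', hG, -, -, h4⟩ := exists_fv hU hF ∅ Set.finite_empty
  refine h4 r I J C D n xs ys (h1.bf (hG r) r) ⟨fun j k => ?_, ?_⟩
  · exact (h1.bf (hG 0) 0).1 j k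
  · intro m s i v i' w hm e1 e2
    exact (h2 m s i v i' w hm e1 e2).bf hF' _

/-- Tuples of one sum are matched by tuples of a sum with an elementarily equivalent index
structure. -/
theorem exists_tuple [IsEmpty (L.Relations 0)]
    {Ψ : ∀ n : ℕ, L.Relations n → Set (Σ m : ℕ, LQ.Relations m)}
    {Φ : ∀ n : ℕ, L.Relations n → Set (L.BoundedFormula Empty n)}
    (hU : FinDep δ Ψ Φ) (hCD : EEq (LI L LQ) (Fin.elim0 : Fin 0 → Ix L LQ C)
      (Fin.elim0 : Fin 0 → Ix L LQ D))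
    {n : ℕ} (φ : L.BoundedFormula Empty n) (G₁ : Set (Σ n : ℕ, (LI L LQ).Relations n))
    (hG₁ : G₁.Finite) (ys : Fin n → Sm δ D) :
    ∃ xs : Fin n → Sm δ C, (Tr φ xs ↔ Tr φ ys) ∧
      BF (L := LI L LQ) G₁ 0 (fs ∘ xs) (fs ∘ ys) := by
  obtain ⟨F, r, hF, h⟩ := exists_rank (L := L) inferInstance φ
  obtain ⟨F', r₀, G, hF', hG, hG1, hforth, h4⟩ := exists_fv hU hF G₁ hG₁
  have key : ∀ (m k : ℕ) (zs : Fin m → Sm δ D), ∃ xs : Fin m → Sm δ C,
      BF (L := LI L LQ) (G k) k (fs ∘ zs) (fs ∘ xs) ∧ LE F' (k + r₀) zs xs := by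
    intro m
    induction m with
    | zero =>
      intro k zs
      have e1 : ∀ {X : Type} (u : Fin 0 → X), u = Fin.elim0 := fun u => Subsingleton.elim _ _
      refine ⟨Fin.elim0, ?_, fun j => j.elim0, fun m s i v i' w hm _ _ => (s ⟨0, hm⟩).elim0⟩
      rw [e1 (fs ∘ zs), e1 (fs ∘ (Fin.elim0 : Fin 0 → Sm δ C))]
      exact (hCD.bf (hG k) k).symm
    | succ m ih =>
      intro k zs
      obtain ⟨xs, h1, h2⟩ := ih (k + 1) fun l => zs l.castSucc
      obtain ⟨x, h5, h6⟩ := hforth J I D C k m _ xs h1 h2 (zs (Fin.last m))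
      have e2 : sn (fun l => zs l.castSucc) (zs (Fin.last m)) = zs := by
        funext j
        refine Fin.lastCases ?_ (fun j => ?_) j
        · rw [sn_last]
        · rw [sn_castSucc]
      rw [e2] at h5 h6
      exact ⟨_, h5, h6⟩
  obtain ⟨xs, h1, h2⟩ := key n r ys
  refine ⟨xs, (h _ _ _ _ (h4 r J I D C n ys xs h1 h2)).symm, ?_⟩
  exact ((h1.mono_rank (Nat.zero_le _)).mono (hG1 r)).symm

end Pool.Agent.TH74.Gen
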