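import Pool.Agent.TH74.Gen.Types

set_option autoImplicit false
set_option linter.unusedSectionVars false

/-!
# Translation of the formulas of `L₁(S)` about a class into formulas of `L₁(T)`
-/

namespace Pool.Agent.TH74.Gen

open FirstOrder FirstOrder.Language Pool.Agent.TH74.Martin

variable {L LQ : FirstOrder.Language.{0, 0}} [L.IsRelational] [LQ.IsRelational]
  [IsEmpty (L.Relations 0)]
  {T : L.Theory} {ε : L.BoundedFormula Empty 2} {le : LQ.Relations 2}
  {θ : ∀ n : ℕ, LQ.Relations n → L.BoundedFormula Empty n} {h : IsGenSum T ε le θ}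

theorem eeq_const {L' : FirstOrder.Language.{0, 0}} [L'.IsRelational] {X Y : Type}
    [L'.Structure X] [L'.Structure Y] {a : X} {b : Y}
    (h : EEq L' (fun _ : Fin 1 => a) (fun _ : Fin 1 => b)) (k : ℕ) :
    EEq L' (fun _ : Fin k => a) (fun _ : Fin k => b) :=
  h.comp inferInstance fun _ : Fin k => (0 : Fin 1)

/-- the type of an index -/
def itp (M : SM h) (i : M.I) : Set ((LI L LQ).BoundedFormula Empty 1) :=
  {φ | Tr φ fun _ : Fin 1 => ix L LQ M.C i}

theorem eeq_of_itp {M N : SM h} {i : M.I} {j : N.I} (hij : itp M i = itp N j) :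
    EEq (LI L LQ) (fun _ : Fin 1 => ix L LQ M.C i) (fun _ : Fin 1 => ix L LQ N.C j) := by
  intro φ
  exact Set.ext_iff.1 hij φ

theorem itp_eq {M N : SM h} {i : M.I} {j : N.I}
    (hij : EEq (LI L LQ) (fun _ : Fin 1 => ix L LQ M.C i) (fun _ : Fin 1 => ix L LQ N.C j)) :
    itp M i = itp N j :=
  Set.ext hij

/-- the predicates determine the theory of the class -/
theorem same_of_eeq {M N : SM h} {k : ℕ} {t : Fin k → M.X} {u : Fin k → N.X}
    (htu : EEq (LI L LQ) t u) (j : Fin k) (σ : L.Sentence) :
    M.C (un (t j)) ⊨ σ ↔ N.C (un (u j)) ⊨ σ := by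
  have h1 := htu (relF (ps LQ σ) fun _ => j)
  rw [tr_relF, tr_relF, relMap_p, relMap_p] at h1
  exact (tr_sentence σ).symm.trans (h1.trans (tr_sentence σ))

theorem same_of_itp {M N : SM h} {i : M.I} {j : N.I} (hij : itp M i = itp N j)
    (σ : L.Sentence) : M.C i ⊨ σ ↔ N.C j ⊨ σ :=
  same_of_eeq (eeq_of_itp hij) 0 σ

/-- `p` is the type, in a sum which is a model of `T`, of a tuple of type `q` in a summand with an
index of type `r` -/
def Good (h : IsGenSum T ε le θ) (r : Set ((LI L LQ).BoundedFormula Empty 1)) {k : ℕ}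
    (q p : Set (L.BoundedFormula Empty k)) : Prop :=
  ∃ (M : SM h) (i : M.I) (v : Fin k → M.C i), r = itp M i ∧ q = {φ | Tr φ v} ∧
      p = {φ | Tr φ fun j => inn (crossOf h) i (v j)}

theorem Good.isCompleteType {r : Set ((LI L LQ).BoundedFormula Empty 1)} {k : ℕ}
    {q p : Set (L.BoundedFormula Empty k)} (hg : Good h r q p) : IsCompleteType T p := by
  obtain ⟨M, i, v, -, -, hp⟩ := hg
  exact ⟨M.S, inferInstance, inferInstance, inferInstance, _, M.model, hp⟩

open Classical in
/-- the translation; the class is that of the variable `x` -/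
noncomputable def trL (h : IsGenSum T ε le θ) (r : Set ((LI L LQ).BoundedFormula Empty 1))
    {S : L.Theory} {m : ℕ} (x : Fin m) : ∀ {n : ℕ}, L1 S n → L1 T (m + n)
  | _, .fo φ => .fo (rl ε x φ)
  | _, .conj q _ v => if hg : ∃ p, Good h r q p then
      .conj hg.choose hg.choose_spec.isCompleteType (fun j => Fin.natAdd m (v j))
      else .fo .falsum
  | _, .not φ => .not (trL h r x φ)
  | _, .and φ ψ => .and (trL h r x φ) (trL h r x ψ)
  | n, .all φ => .all (.not (.and
      (.fo (sub ε ![(Fin.castAdd n x).castSucc, Fin.last (m + n)])) (.not (trL h r x φ))))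

/-- the type in the sum is determined by the type in the class and the type of the index -/
theorem eeq_inn {M N : SM h} {i : M.I} {j : N.I} (hij : itp M i = itp N j) {k : ℕ}
    {v : Fin k → M.C i} {w : Fin k → N.C j} (hvw : EEq L v w) :
    EEq L (fun l => inn (crossOf h) i (v l)) (fun l => inn (crossOf h) j (w l)) := by
  refine eeq_sum (finDep_crossOf h) (eeq_const (eeq_of_itp hij) k)
    fun m' s i1' v1 i2' w1 hm' h4 h5 => ?_
  obtain rfl : i = i1' := congrArg Sigma.fst (h4 ⟨0, hm'⟩)
  obtain rfl : j = i2' := congrArg Sigma.fst (h5 ⟨0, hm'⟩)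
  have e2 : v1 = v ∘ s := funext fun l => (inn_inj (h4 l)).symm
  have e3 : w1 = w ∘ s := funext fun l => (inn_inj (h5 l)).symm
  rw [e2, e3]
  exact hvw.comp inferInstance s

theorem sat_trL (M : SM h) {r : Set ((LI L LQ).BoundedFormula Empty 1)} {i : M.I}
    (hr : r = itp M i) {S : L.Theory} {m : ℕ} (x : Fin m) {n : ℕ} (φ : L1 S n) :
    ∀ (z : Fin (m + n) → M.S) (v : Fin n → M.C i),
      (∀ k, z (Fin.natAdd m k) = inn _ i (v k)) → (z (Fin.castAdd n x)).1 = i →
        ((trL h r x φ).Sat z ↔ φ.Sat v) := by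
  classical
  induction φ with
  | fo φ => exact fun z v hz hx => tr_rl M.dfs x φ z v hz hx
  | @conj n k q hq u =>
    intro z v hz hx
    let w : Fin k → M.C i := fun j => v (u j)
    have hw : (fun j => z (Fin.natAdd m (u j))) = fun j => inn (crossOf h) i (w j) :=
      funext fun j => hz (u j)
    by_cases hg : ∃ p, Good h r q p
    · have e1 : trL h r x (L1.conj q hq u) =
          .conj hg.choose hg.choose_spec.isCompleteType (fun j => Fin.natAdd m (u j)) := by
        rw [trL, dif_pos hg]
      rw [e1]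
      change (∀ φ ∈ hg.choose, Tr φ fun j => z (Fin.natAdd m (u j))) ↔ ∀ φ ∈ q, Tr φ w
      rw [hw]
      obtain ⟨M', i', v', hr', hq', hp'⟩ := hg.choose_spec
      have hii : itp M' i' = itp M i := hr'.symm.trans hr
      constructor
      · intro h1
        have h2 : EEq L (fun j => inn (crossOf h) i' (v' j))
            (fun j => inn (crossOf h) i (w j)) := by
          refine eeq_of_tp fun φ hφ => h1 φ ?_
          rw [hp']
          exact hφ
        have h3 : EEq L v' w := by
          rcases Nat.eq_zero_or_pos k with hk | hk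
          · subst hk
            exact eeq_elim0 (same_of_itp hii) v' w
          · exact eeq_of_inn M'.dfs M.dfs hk h2
        intro φ hφ
        rw [hq'] at hφ
        exact (h3 φ).1 hφ
      · intro h1
        have h3 : EEq L v' w := by
          refine eeq_of_tp fun φ hφ => h1 φ ?_
          rw [hq']
          exact hφ
        have h2 := eeq_inn hii h3
        intro φ hφ
        rw [hp'] at hφ
        exact (h2 φ).1 hφ
    · have e1 : trL h r x (L1.conj q hq u) = .fo .falsum := by
        rw [trL, dif_neg hg]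
      rw [e1]
      refine iff_of_false id fun h1 => hg ?_
      have h1' : ∀ φ ∈ q, Tr φ w := h1
      obtain ⟨Y, j1, j2, j3, a, hY, hqa⟩ := hq
      refine ⟨_, M, i, w, hr, ?_, rfl⟩
      rw [hqa]
      ext φ
      refine (eeq_of_tp fun φ hφ => h1' φ ?_) φ
      rw [hqa]
      exact hφ
  | not φ ih => exact fun z v hz hx => not_congr (ih z v hz hx)
  | and φ ψ ih1 ih2 => exact fun z v hz hx => and_congr (ih1 z v hz hx) (ih2 z v hz hx)
  | @all n φ ih =>
    intro z v hz hx
    change (∀ y : M.S,
      ¬ (Tr (sub ε ![(Fin.castAdd n x).castSucc, Fin.last (m + n)]) (sn z y) ∧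
        ¬ (trL h r x φ).Sat (sn z y))) ↔ ∀ a : M.C i, φ.Sat (sn v a)
    constructor
    · intro h1 a
      have h2 := h1 (inn _ i a)
      rw [not_and_not_right] at h2
      refine (ih (sn z (inn _ i a)) (sn v a) (snoc_natAdd (inn _ i) z v hz a) ?_).1
        (h2 ((tr_inClass M.dfs x z _).2 hx))
      rw [snoc_castAdd]
      exact hx
    · intro h1 y
      rw [not_and_not_right]
      intro hy
      obtain ⟨a, rfl⟩ := eq_inn y ((((tr_inClass M.dfs x z y).1 hy).symm.trans hx : y.1 = i))
      refine (ih (sn z (inn _ i a)) (sn v a) (snoc_natAdd (inn _ i) z v hz a) ?_).2 (h1 a)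
      rw [snoc_castAdd]
      exact hx

end Pool.Agent.TH74.Gen
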