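import Pool.Agent.TH74.Gen.Bundle

set_option autoImplicit false
set_option linter.unusedSectionVars false

/-!
# Isomorphism types of the classes
-/

namespace Pool.Agent.TH74.Gen

open FirstOrder FirstOrder.Language Pool.Agent.TH74.Martin

section

variable {L : FirstOrder.Language.{0, 0}}

theorem model_congr {X Y Z : Type} [L.Structure X] [L.Structure Y] [L.Structure Z]
    (h : ∀ σ : L.Sentence, X ⊨ σ ↔ Y ⊨ σ) :
    X ⊨ L.completeTheory Z ↔ Y ⊨ L.completeTheory Z := by
  rw [th_iff, th_iff]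
  exact forall_congr' fun σ => by rw [h σ]

theorem ct_congr {X Y : Type} [L.Structure X] [L.Structure Y]
    (h : ∀ σ : L.Sentence, X ⊨ σ ↔ Y ⊨ σ) : L.completeTheory X = L.completeTheory Y := by
  ext σ
  exact h σ

theorem ct_eq {X Y : Type} [L.Structure X] [L.Structure Y] (h : Y ⊨ L.completeTheory X) :
    L.completeTheory Y = L.completeTheory X :=
  ct_congr fun σ => (th_iff.1 h σ).symm

theorem same_of_ct {X Y : Type} [L.Structure X] [L.Structure Y]
    (h : L.completeTheory X = L.completeTheory Y) (σ : L.Sentence) : X ⊨ σ ↔ Y ⊨ σ :=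
  Set.ext_iff.1 h σ

theorem self_model (X : Type) [L.Structure X] : X ⊨ L.completeTheory X :=
  th_iff.2 fun _ => Iff.rfl

/-- two countable models -/
theorem exists_two {S : L.Theory} (hS : ¬ OneModel S) : ∃ D : Bool → Str L,
    (∀ b, Nonempty (D b).M) ∧ (∀ b, Countable (D b).M) ∧ (∀ b, (D b).M ⊨ S) ∧
      ¬ Nonempty ((D false).M ≃[L] (D true).M) := by
  unfold OneModel at hS
  push Not at hS
  obtain ⟨X, Y, i1, i2, i3, i4, i5, i6, hX, hY, hXY⟩ := hS
  refine ⟨fun b => match b with
    | true => ⟨Y, i2⟩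
    | false => ⟨X, i1⟩, fun b => ?_, fun b => ?_, fun b => ?_, ?_⟩
  · cases b
    · exact i3
    · exact i4
  · cases b
    · exact i5
    · exact i6
  · cases b
    · exact hX
    · exact hY
  · exact not_nonempty_iff.2 hXY

end

variable {L LQ : FirstOrder.Language.{0, 0}} [L.IsRelational] [LQ.IsRelational]
  {T : L.Theory} {ε : L.BoundedFormula Empty 2} {le : LQ.Relations 2}
  {θ : ∀ n : ℕ, LQ.Relations n → L.BoundedFormula Empty n} {h : IsGenSum T ε le θ}

theorem same_of_iso {M : SM h} {G G' : M.I → Str L}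
    (hG : ∀ i (σ : L.Sentence), M.C i ⊨ σ ↔ (G i).M ⊨ σ)
    (hG' : ∀ i (σ : L.Sentence), M.C i ⊨ σ ↔ (G' i).M ⊨ σ) {i j : M.I}
    (hij : Nonempty ((G i).M ≃[L] (G' j).M)) (σ : L.Sentence) : M.C i ⊨ σ ↔ M.C j ⊨ σ := by
  obtain ⟨f⟩ := hij
  exact (hG i σ).trans ((StrongHomClass.realize_sentence f σ).trans (hG' j σ).symm)

/-- the linear quotient of the set of the indices of the classes with theory `S` -/
structure LQt (M : SM h) (S : L.Theory) where
  /-- the quotient -/
  J : Type
  ord : LinearOrder J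
  /-- the quotient map -/
  q : {i : M.I // L.completeTheory (M.C i) = S} → J
  surj : Function.Surjective q
  le_iff : ∀ a b, Lq M a.1 b.1 ↔ q a ≤ q b

attribute [instance] LQt.ord

theorem bad_of_eq {M : SM h} {S : L.Theory} (hS : ¬ OneModel S) {i : M.I}
    (hi : L.completeTheory (M.C i) = S) : IsBad M i := by
  unfold IsBad
  rw [hi]
  exact hS

theorem exists_LQt [IsEmpty (L.Relations 0)] (M : SM h) {S : L.Theory} (hS : ¬ OneModel S) :
    Nonempty (LQt M S) := by
  obtain ⟨J, ord, q, h1, h2⟩ := exists_quot (A := {i : M.I // L.completeTheory (M.C i) = S})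
    (fun a b => Lq M a.1 b.1)
    (fun a b => lq_total (bad_of_eq hS a.2) (a.2.trans b.2.symm))
    fun a b c => lq_trans (bad_of_eq hS a.2) (a.2.trans b.2.symm) (b.2.trans c.2.symm)
  exact ⟨⟨J, ord, q, h1, h2⟩⟩

theorem bad_congr {M N : SM h} {i : M.I} {j : N.I}
    (hij : L.completeTheory (M.C i) = L.completeTheory (N.C j)) : IsBad M i ↔ IsBad N j := by
  unfold IsBad
  rw [hij]

/-- the induced isomorphism -/
theorem exists_ind {M N : SM h} {S : L.Theory} (K : LQt M S) (K' : LQt N S)
    (e : M.I ≃[LQ] N.I)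
    (he : ∀ i, L.completeTheory (M.C i) = L.completeTheory (N.C (e i))) :
    ∃ f : K.J ≃o K'.J, ∀ (i : M.I) (hi : L.completeTheory (M.C i) = S)
      (hi' : L.completeTheory (N.C (e i)) = S), f (K.q ⟨i, hi⟩) = K'.q ⟨e i, hi'⟩ := by
  obtain ⟨f, hf⟩ := exists_induced K.surj K'.surj
    (e.toEquiv.subtypeEquiv fun i => by
      have h1 := he i
      change L.completeTheory (M.C i) = S ↔ L.completeTheory (N.C (e i)) = S
      rw [h1]) (fun a b => by
      rw [← K.le_iff, ← K'.le_iff]
      exact map_lq e a.1 b.1)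
  exact ⟨f, fun i hi hi' => hf ⟨i, hi⟩⟩

/-- If the theory `S` of a class has two countable models, then the linear quotient of the set of
the classes with this theory is finite. -/
theorem finite_J [IsEmpty (L.Relations 0)] (hfew : Few T) (M : SM h) {S : L.Theory}
    (hS : ¬ OneModel S) (K : LQt M S) : Finite K.J := by
  by_contra hinf
  rw [not_finite_iff_infinite] at hinf
  obtain ⟨U, hU⟩ := exists_colorings K.J
  obtain ⟨D, hn, hc, hD, hiso⟩ := exists_two hS
  let G : (ℕ → Bool) → M.I → Str L := fun x i =>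
    pick (∃ hi : L.completeTheory (M.C i) = S, K.q ⟨i, hi⟩ ∈ U x)
      (D true) (pick (L.completeTheory (M.C i) = S) (D false) ⟨M.C i, M.sC i⟩)
  have hG1 : ∀ x i (hi : L.completeTheory (M.C i) = S), K.q ⟨i, hi⟩ ∈ U x →
      G x i = D true := fun x i hi h1 => pick_pos ⟨hi, h1⟩ _ _
  have hG2 : ∀ x i (hi : L.completeTheory (M.C i) = S), K.q ⟨i, hi⟩ ∉ U x →
      G x i = D false :=
    fun x i hi h1 => (pick_neg (fun h => h1 h.2) _ _).trans (pick_pos hi _ _)
  have hG3 : ∀ x i, ¬ L.completeTheory (M.C i) = S → G x i = ⟨M.C i, M.sC i⟩ :=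
    fun x i hi => (pick_neg (fun h => hi h.1) _ _).trans (pick_neg hi _ _)
  have hDS : ∀ (b : Bool) (i : M.I), L.completeTheory (M.C i) = S →
      ∀ σ : L.Sentence, M.C i ⊨ σ ↔ (D b).M ⊨ σ := by
    intro b i hi
    have h1 := hD b
    rw [← hi] at h1
    exact th_iff.1 h1
  have hG : ∀ x i (σ : L.Sentence), M.C i ⊨ σ ↔ (G x i).M ⊨ σ := by
    intro x i σ
    by_cases hi : L.completeTheory (M.C i) = S
    · by_cases hi' : K.q ⟨i, hi⟩ ∈ U x
      · rw [hG1 x i hi hi']
        exact hDS true i hi σ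
      · rw [hG2 x i hi hi']
        exact hDS false i hi σ
    · rw [hG3 x i hi]
  refine not_few_of_repl hfew M G (fun x i => ?_) (fun x i => ?_) hG fun x y e he => ?_
  · by_cases hi : L.completeTheory (M.C i) = S
    · by_cases hi' : K.q ⟨i, hi⟩ ∈ U x
      · rw [hG1 x i hi hi']
        exact hn true
      · rw [hG2 x i hi hi']
        exact hn false
    · rw [hG3 x i hi]
      exact M.nC i
  · by_cases hi : L.completeTheory (M.C i) = S
    · by_cases hi' : K.q ⟨i, hi⟩ ∈ U x
      · rw [hG1 x i hi hi']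
        exact hc true
      · rw [hG2 x i hi hi']
        exact hc false
    · rw [hG3 x i hi]
      exact M.cC i
  · have hth : ∀ i, L.completeTheory (M.C i) = L.completeTheory (M.C (e i)) := fun i =>
      ct_congr (same_of_iso (hG x) (hG y) (he i))
    obtain ⟨f, hf⟩ := exists_ind K K e hth
    refine hU x y f fun c => ?_
    obtain ⟨⟨i, hi⟩, rfl⟩ := K.surj c
    have h2 : L.completeTheory (M.C (e i)) = S := (hth i).symm.trans hi
    rw [hf i hi h2]
    have h3 := he i
    by_cases hx : K.q ⟨i, hi⟩ ∈ U x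
    · by_cases hy : K.q ⟨e i, h2⟩ ∈ U y
      · exact iff_of_true hx hy
      · rw [hG1 x i hi hx, hG2 y _ h2 hy] at h3
        obtain ⟨g⟩ := h3
        exact absurd ⟨g.symm⟩ hiso
    · by_cases hy : K.q ⟨e i, h2⟩ ∈ U y
      · rw [hG2 x i hi hx, hG1 y _ h2 hy] at h3
        exact absurd h3 hiso
      · exact iff_of_false hx hy

/-- the classes with a given theory have finitely many isomorphism types -/
theorem finite_ity [IsEmpty (L.Relations 0)] (hfew : Few T) (M : SM h) (X : Type)
    [L.Structure X] :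
    {t | ∃ i, M.C i ⊨ L.completeTheory X ∧ ity (L := L) (M.C i) = t}.Finite := by
  by_contra hinf
  let ι := Set.Infinite.natEmbedding _ hinf
  choose d hd1 hd2 using fun n : ℕ => (ι n).2
  have hd : ∀ n m, Nonempty (M.C (d n) ≃[L] M.C (d m)) → n = m := by
    intro n m hnm
    rw [← ity_eq, hd2, hd2] at hnm
    exact ι.injective (Subtype.ext hnm)
  have hdi : Function.Injective d := fun n m hnm => hd n m (by
    rw [hnm]
    exact ⟨FirstOrder.Language.Equiv.refl L _⟩)
  let ν : M.I → ℕ := Function.invFun d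
  have hν : ∀ n, ν (d n) = n := Function.leftInverse_invFun hdi
  let c : Bool → ℕ := fun b => cond b 1 0
  let G : (ℕ → Bool) → M.I → Str L := fun x i =>
    pick (M.C i ⊨ L.completeTheory X)
      ⟨M.C (d (2 * ν i + c (x (ν i)))), M.sC _⟩ ⟨M.C i, M.sC i⟩
  have hG1 : ∀ x i, M.C i ⊨ L.completeTheory X →
      G x i = ⟨M.C (d (2 * ν i + c (x (ν i)))), M.sC _⟩ := fun x i hi => pick_pos hi _ _
  have hG3 : ∀ x i, ¬ M.C i ⊨ L.completeTheory X → G x i = ⟨M.C i, M.sC i⟩ :=
    fun x i hi => pick_neg hi _ _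
  have hG : ∀ x i (σ : L.Sentence), M.C i ⊨ σ ↔ (G x i).M ⊨ σ := by
    intro x i σ
    by_cases hi : M.C i ⊨ L.completeTheory X
    · rw [hG1 x i hi]
      exact (th_iff.1 hi σ).symm.trans (th_iff.1 (hd1 _) σ)
    · rw [hG3 x i hi]
  refine not_few_of_repl hfew M G (fun x i => ?_) (fun x i => ?_) hG fun x y e he => ?_
  · by_cases hi : M.C i ⊨ L.completeTheory X
    · rw [hG1 x i hi]
      exact M.nC _
    · rw [hG3 x i hi]
      exact M.nC i
  · by_cases hi : M.C i ⊨ L.completeTheory X
    · rw [hG1 x i hi]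
      exact M.cC _
    · rw [hG3 x i hi]
      exact M.cC i
  · funext n
    have h1 := he (d n)
    have h2 : M.C (e (d n)) ⊨ L.completeTheory X :=
      (model_congr (same_of_iso (hG x) (hG y) h1)).1 (hd1 n)
    rw [hG1 x _ (hd1 n), hG1 y _ h2, hν] at h1
    have h3 := hd _ _ h1
    have h4 : ∀ b, c b = 0 ∨ c b = 1 := fun b => by cases b <;> simp [c]
    have h5 : n = ν (e (d n)) := by
      have := h4 (x n)
      have := h4 (y (ν (e (d n))))
      omega
    rw [← h5] at h3
    have h6 : c (x n) = c (y n) := by omega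
    revert h6
    cases x n <;> cases y n <;> simp [c]

/-- the class is determined by its theory if the index is not bad -/
theorem iso_of_not_bad {M : SM h} {i : M.I} (hi : ¬ IsBad M i) (Y : Type) [L.Structure Y]
    [Nonempty Y] [Countable Y] (hY : Y ⊨ L.completeTheory (M.C i)) :
    Nonempty (M.C i ≃[L] Y) := by
  unfold IsBad at hi
  rw [not_not] at hi
  exact hi _ _ (self_model _) hY

end Pool.Agent.TH74.Gen
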